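import Mathlib

/-!
Block R (MP_33c03a_lc, captain helper16): definitions.
Part A is about a normal homomorphism `h : P(W) → B`, `W` a well order of type `ω₁`.
Part B is the Mapping Reflection Principle in `ZFSet`.
-/

open Set

namespace MP33c03aR

universe u v

section A

variable {W : Type v} [LinearOrder W]

/-- `W` (a well order) has type `ω₁`. -/
def Om1 (W : Type v) [LinearOrder W] : Prop :=
  (∀ x : W, (Iio x).Countable) ∧ ¬ (univ : Set W).Countable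

/-- Normal homomorphisms from the power set of `W` to `B`. -/
structure NH {B : Type u} [CompleteBooleanAlgebra B] (h : Set W → B) : Prop where
  top : h univ = ⊤
  compl : ∀ A, h Aᶜ = (h A)ᶜ
  inter : ∀ A A', h (A ∩ A') = h A ⊓ h A'
  single : ∀ x, h {x} = ⊥
  diag : ∀ A : W → Set W, h {d | ∃ x < d, d ∈ A x} = ⨆ x, h (A x)

/-- `x` is a limit point of `C`. -/
def LimPt (C : Set W) (x : W) : Prop := (∃ y, y < x) ∧ ∀ y < x, ∃ z ∈ C, y < z ∧ z < x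

/-- Closed unbounded subsets. -/
def IsClb (C : Set W) : Prop := (∀ x, ∃ y ∈ C, x < y) ∧ ∀ x, LimPt C x → x ∈ C

/-- The consequence of Measuring that is used: every ladder system is avoided by a club. -/
def LM (W : Type v) [LinearOrder W] : Prop :=
  ∀ D : W → Set W, (∀ d, ∀ g < d, (D d ∩ Iic g).Finite) →
    ∃ C, IsClb C ∧ ∀ d, LimPt C d → ∃ a < d, ∀ x ∈ C, a < x → x < d → x ∉ D d

/-- The standing assumptions of the Boolean part. -/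
structure Ctx {B : Type u} [CompleteBooleanAlgebra B] (h : Set W → B) (B0 : Set B)
    (e : W → ℕ → W) : Prop where
  om : Om1 W
  nh : NH h
  nt : (⊤ : B) ≠ ⊥
  sub_compl : ∀ x ∈ B0, xᶜ ∈ B0
  sub_sup : ∀ s ⊆ B0, sSup s ∈ B0
  dens : ∃ dd : W → B, (∀ a, dd a ∈ B0) ∧ (∀ a, dd a ≠ ⊥) ∧ ∀ x ∈ B0, x ≠ ⊥ → ∃ a, dd a ≤ x
  en : ∀ d, (Iio d).Infinite → BijOn (e d) univ (Iio d)
  gen : ∀ m n, h {d | (Iio d).Infinite ∧ e d m < e d n} ∈ B0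

/-- `st` is regressive almost everywhere, with fibres measured in `B0`. -/
def RG {B : Type u} [CompleteBooleanAlgebra B] (h : Set W → B) (B0 : Set B) (st : W → W) : Prop :=
  h {d | st d < d} = ⊤ ∧ ∀ a, h {d | st d = a} ∈ B0

/-- The dense family of measured sets. -/
def DF {B : Type u} [CompleteBooleanAlgebra B] (h : Set W → B) (B0 : Set B) (S : W → Set W) :
    Prop :=
  (∀ a, h (S a) ∈ B0) ∧ (∀ a, h (S a) ≠ ⊥) ∧
    ∀ A, h A ∈ B0 → h A ≠ ⊥ → ∃ a, h (S a) ≤ h A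

/-- The fibre `T` decides the value of `e d n` and the set `S` of that value. -/
def Dec {B : Type u} [CompleteBooleanAlgebra B] (h : Set W → B) (e : W → ℕ → W) (S : W → Set W)
    (n : ℕ) (T : Set W) : Prop :=
  ∃ b, h (T \ {d | (Iio d).Infinite ∧ e d n = b}) = ⊥ ∧ (h (T \ S b) = ⊥ ∨ h (T ∩ S b) = ⊥)

/-- The construction of length `ω`: `st n` codes the values of `x 0, …, x (n-1)`. -/
structure Sq {B : Type u} [CompleteBooleanAlgebra B] (h : Set W → B) (B0 : Set B)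
    (e : W → ℕ → W) (S : W → Set W) (code : W → W → W) (st x : ℕ → W → W) : Prop where
  inj : ∀ a b a' b', code a b = code a' b' → a = a' ∧ b = b'
  stS : ∀ n d, st (n + 1) d = code (st n d) (x n d)
  rst : ∀ n, RG h B0 (st n)
  rx : ∀ n, h {d | x n d < d} = ⊤
  pos : ∀ n a, h {d | st n d = a} ≠ ⊥ → ∀ ξ, h {d | st n d = a ∧ x n d = ξ} ≠ ⊥
  dec : ∀ n a, h {d | st n d = a} ≠ ⊥ → ∀ ξ, Dec h e S n {d | st n d = a ∧ x n d = ξ}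

/-- The running maximum of the `x n`. -/
def ymax (x : ℕ → W → W) : ℕ → W → W
  | 0, d => x 0 d
  | n + 1, d => max (ymax x n d) (x (n + 1) d)

/-- Every countable subset of `B` lies in a complete subalgebra of density at most `ℵ₁`. -/
def CountGen (B : Type u) [CompleteBooleanAlgebra B] : Prop :=
  ∀ E : Set B, E.Countable → ∃ B0 : Set B, E ⊆ B0 ∧ (∀ x ∈ B0, xᶜ ∈ B0) ∧
    (∀ s ⊆ B0, sSup s ∈ B0) ∧
    ∃ D ⊆ B0, Cardinal.mk D ≤ Cardinal.aleph 1 ∧ ∀ x ∈ B0, x ≠ ⊥ → ∃ d ∈ D, d ≠ ⊥ ∧ d ≤ x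

end A

section B

/-- `H(θ)`: sets whose transitive closure has size less than `θ`. -/
def HH (θ : Cardinal.{0}) : Set ZFSet.{0} := {x | ∃ t : ZFSet, t.IsTransitive ∧ x ⊆ t ∧ t.card < θ}

/-- Countable sets. -/
def Ctb (x : ZFSet.{0}) : Prop := {z | z ∈ x}.Countable

/-- `[X]^ω`: the countable subsets of `X`. -/
def CS (X : ZFSet.{0}) : ZFSet.{0} := ZFSet.sep (fun Y => Ctb Y) (ZFSet.powerset X)

/-- `E` is a club subset of `[A]^ω`, where `A` is a set or a class. -/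
def ClubIn (A : Set ZFSet.{0}) (E : Set ZFSet.{0}) : Prop :=
  (∀ Y ∈ E, Ctb Y ∧ ∀ z ∈ Y, z ∈ A) ∧
  (∀ Y : ZFSet, Ctb Y → (∀ z ∈ Y, z ∈ A) → ∃ Z ∈ E, Y ⊆ Z) ∧
  (∀ f : ℕ → ZFSet.{0}, (∀ n, f n ∈ E) → (∀ n, f n ⊆ f (n + 1)) →
    ∀ Z : ZFSet, (∀ z, z ∈ Z ↔ ∃ n, z ∈ f n) → Z ∈ E)

/-- Open sets of the Ellentuck topology on `[X]^ω`. -/
def EOpen (X : ZFSet.{0}) (Sm : Set ZFSet.{0}) : Prop :=
  Sm ⊆ {Y | Y ∈ CS X} ∧
  ∀ Y ∈ Sm, ∃ x N : ZFSet, {z | z ∈ x}.Finite ∧ N ∈ CS X ∧ x ⊆ Y ∧ Y ⊆ N ∧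
    ∀ Z : ZFSet, x ⊆ Z → Z ⊆ N → Z ∈ Sm

/-- `Sm` is `M`-stationary. -/
def MStat (X M : ZFSet.{0}) (Sm : Set ZFSet.{0}) : Prop :=
  ∀ E ∈ M, ClubIn {z | z ∈ X} {Y | Y ∈ E} → ∃ Y ∈ E, Y ∈ Sm ∧ Y ∈ M

/-- The language of set theory. -/
inductive LRel : ℕ → Type
  | mem : LRel 2

/-- The language of set theory. -/
def LSet : FirstOrder.Language.{0, 0} := ⟨fun _ => Empty, LRel⟩

/-- `(H(θ), ∈)` as a structure. -/
instance instStrHH (θ : Cardinal.{0}) : LSet.Structure (HH θ) where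
  funMap := fun f _ => nomatch f
  RelMap := fun r v => match r with
    | LRel.mem => (v 0).1 ∈ (v 1).1

/-- `M` is an elementary submodel of `(H(θ), ∈)`. -/
def ElemIn (θ : Cardinal.{0}) (M : ZFSet.{0}) : Prop :=
  ∃ S : LSet.ElementarySubstructure (HH θ), ∀ z : ZFSet, z ∈ M ↔ ∃ y ∈ S, (y : HH θ).1 = z

/-- The Mapping Reflection Principle. -/
def MRP : Prop :=
  ∀ (X : ZFSet.{0}) (θ : Cardinal.{0}), ¬ Ctb X → θ.IsRegular → CS X ∈ HH θ →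
  ∀ (dom : Set ZFSet.{0}) (Sm : ZFSet.{0} → Set ZFSet.{0}),
    ClubIn (HH θ) dom → (∀ M ∈ dom, ElemIn θ M ∧ X ∈ M) →
    (∀ M ∈ dom, EOpen X (Sm M) ∧ MStat X M (Sm M)) →
    ∃ N : Ordinal.{0} → ZFSet.{0},
      (∀ ξ < Ordinal.omega 1, N ξ ∈ dom) ∧
      (∀ ξ < Ordinal.omega 1, N ξ ∈ N (ξ + 1)) ∧
      (∀ ν < Ordinal.omega 1, Order.IsSuccLimit ν → ∀ z, z ∈ N ν ↔ ∃ ξ < ν, z ∈ N ξ) ∧
      ∀ ν < Ordinal.omega 1, Order.IsSuccLimit ν →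
        ∃ ν₀ < ν, ∀ ξ, ν₀ < ξ → ξ < ν → N ξ ∩ X ∈ Sm (N ν)

/-- The well order `ω₁`. -/
abbrev W1 : Type 1 := Iio (Ordinal.omega 1 : Ordinal.{0})

/-- Being closed under countably many finitary functions. -/
def Clo (G : ℕ → List ZFSet.{0} → ZFSet.{0}) (M : ZFSet.{0}) : Prop :=
  ∀ i l, (∀ z ∈ l, z ∈ M) → G i l ∈ M

/-- `P` holds for all countable subsets of `H(θ)` closed under suitable functions. -/
def Ctl (θ : Cardinal.{0}) (P : ZFSet.{0} → Prop) : Prop :=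
  ∃ G : ℕ → List ZFSet.{0} → ZFSet.{0}, (∀ i l, (∀ z ∈ l, z ∈ HH θ) → G i l ∈ HH θ) ∧
    ∀ M : ZFSet.{0}, Ctb M → (∀ z ∈ M, z ∈ HH θ) → Clo G M → P M

/-- The ordinal `ω₁` as a set. -/
noncomputable def O1 : ZFSet.{0} := (Ordinal.omega 1 : Ordinal.{0}).toZFSet

/-- The height of `M ∩ ω₁` is `δ`, a limit ordinal. -/
def Hgt (M : ZFSet.{0}) (δ : Ordinal.{0}) : Prop :=
  δ < Ordinal.omega 1 ∧ Order.IsSuccLimit δ ∧ ∀ z, (z ∈ M ∧ z ∈ O1) ↔ z ∈ δ.toZFSet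

/-- The properties of models that are used. -/
structure Gd (θ : Cardinal.{0}) (M : ZFSet.{0}) : Prop where
  ct : Ctb M
  sub : ∀ z ∈ M, z ∈ HH θ
  el : ElemIn θ M
  om : O1 ∈ M
  ctb : ∀ Y ∈ M, Ctb Y → Y ⊆ M
  tr : ∀ N ∈ M, N ∩ O1 ∈ M
  hgt : ∃ δ, Hgt M δ
  club : ∀ E ∈ M, ClubIn {z | z ∈ O1} {Y | Y ∈ E} → M ∩ O1 ∈ E
  ne : ∀ E ∈ M, (∃ Y, Y ∈ E) → ∃ Y ∈ E, Y ∈ M

/-- `s` is the least upper bound of the set `Y` of countable ordinals. -/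
def Lub (Y : ZFSet.{0}) (s : Ordinal.{0}) : Prop :=
  (∀ a : Ordinal.{0}, a.toZFSet ∈ Y → a ≤ s) ∧
    ∀ t < s, ∃ a : Ordinal.{0}, a.toZFSet ∈ Y ∧ t < a

/-- A continuous chain of good models. -/
structure Chn (θ : Cardinal.{0}) (N : Ordinal.{0} → ZFSet.{0}) : Prop where
  gd : ∀ ξ < Ordinal.omega 1, Gd θ (N ξ)
  mem : ∀ ξ < Ordinal.omega 1, N ξ ∈ N (ξ + 1)
  cont : ∀ ν < Ordinal.omega 1, Order.IsSuccLimit ν → ∀ z, z ∈ N ν ↔ ∃ ξ < ν, z ∈ N ξ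

/-- Strictly increasing continuous sequences of length `ω₁` in `ω₁`. -/
structure Cseq (c : Ordinal.{0} → Ordinal.{0}) : Prop where
  lt : ∀ ξ < Ordinal.omega 1, c ξ < Ordinal.omega 1
  mono : ∀ ξ η, ξ < η → η < Ordinal.omega 1 → c ξ < c η
  cont : ∀ ν < Ordinal.omega 1, Order.IsSuccLimit ν → ∀ t < c ν, ∃ ξ < ν, t < c ξ

/-- Limits of limit ordinals. -/
def LL (ν : Ordinal.{0}) : Prop :=
  Order.IsSuccLimit ν ∧ ∀ ξ < ν, ∃ η, ξ < η ∧ η < ν ∧ Order.IsSuccLimit η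

/-- The ladder form of `LM` on ordinals. -/
def LMo : Prop :=
  ∀ D : Ordinal.{0} → Set Ordinal.{0},
    (∀ δ < Ordinal.omega 1, ∀ g < δ, (D δ ∩ Iic g).Finite) →
    ∃ c, Cseq c ∧ ∀ ν < Ordinal.omega 1, LL ν → ∃ ν₀ < ν, ∀ ξ, ν₀ < ξ → ξ < ν → c ξ ∉ D (c ν)

/-- The open set used at height `δ`, for `Dδ ⊆ ω₁`. -/
def Sg (D : Set Ordinal.{0}) (δ : Ordinal.{0}) : Set ZFSet.{0} :=
  {Y | Y ∈ CS O1 ∧ ∃ s, Lub Y s ∧ s < δ ∧ s ∉ D}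

end B

end MP33c03aR
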