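import Pool.Agent.Work.MP_33c03a_lc.StmtsA

/-!
Item Bnx of block R (MP_33c03a_lc): the sets `{d | e d n = x}` are measured.
-/

open Set

namespace MP33c03aR

universe u

theorem pr_Bnx (hNul : StNul.{u}) (hCnt : StCnt.{u}) (hMea : StMea.{u}) : StBnx.{u} := by
  intro W _ _ B _ h B0 e hC
  obtain ⟨hemp, hmono, -, -, htopc, htopi⟩ := hNul W B h hC.nh
  obtain ⟨-, hlt, hinf⟩ := hCnt W B h hC.om hC.nh
  obtain ⟨hbot, htop, hcompl, hinter, hunion, hUn, -, hUg, heqv, -⟩ := hMea W B h B0 e hC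
  have hinfc : h {d : W | (Iio d).Infinite}ᶜ = ⊥ := (htopc _).mp hinf
  have hnull : ∀ A, A ⊆ {d : W | (Iio d).Infinite}ᶜ → h A = ⊥ := fun A hA =>
    le_bot_iff.mp ((hmono _ _ hA).trans hinfc.le)
  intro x
  induction x using WellFoundedLT.induction with
  | ind x ih =>
    -- the sets `G m`
    have hG : ∀ m, h {d | (Iio d).Infinite ∧ x ≤ e d m} ∈ B0 := by
      intro m
      -- the measured set
      have h1 : h {d | ∃ y < x, d ∈ {d | y < x ∧ (Iio d).Infinite ∧ e d m = y}} ∈ B0 := by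
        refine (hUg (fun y => {d | y < x ∧ (Iio d).Infinite ∧ e d m = y}) x fun y => ?_).1
        by_cases hy : y < x
        · have h2 : {d | y < x ∧ (Iio d).Infinite ∧ e d m = y} =
              {d | (Iio d).Infinite ∧ e d m = y} := by
            ext d
            exact ⟨fun h => h.2, fun h => ⟨hy, h⟩⟩
          rw [h2]
          exact ih y hy m
        · apply hbot
          have h2 : {d | y < x ∧ (Iio d).Infinite ∧ e d m = y} = ∅ := by
            ext d
            exact ⟨fun h => hy h.1, fun h => h.elim⟩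
          rw [h2, hemp]
      refine heqv _ _ (hnull _ ?_) (hnull _ ?_) (hcompl _ h1)
      · rintro d ⟨h2, h3⟩ h4
        apply h3
        refine ⟨h4, ?_⟩
        by_contra h5
        rw [not_le] at h5
        exact h2 ⟨_, h5, h5, h4, rfl⟩
      · rintro d ⟨⟨h2, h3⟩, h4⟩ h5
        apply h4
        rintro ⟨y, hy, -, -, h6⟩
        rw [h6] at h3
        exact absurd hy (not_lt.mpr h3)
    intro n
    -- the set
    have h1 : h ({d | (Iio d).Infinite ∧ x ≤ e d n} ∩
        ⋂ m, ({d | (Iio d).Infinite ∧ e d m < e d n} ∩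
          {d | (Iio d).Infinite ∧ x ≤ e d m})ᶜ) ∈ B0 := by
      refine hinter _ _ (hG n) ((hUn (fun m => ({d | (Iio d).Infinite ∧ e d m < e d n} ∩
          {d | (Iio d).Infinite ∧ x ≤ e d m})ᶜ) fun m => ?_).2)
      exact hcompl _ (hinter _ _ (hC.gen m n) (hG m))
    have hxc : h {d | x < d}ᶜ = ⊥ := (htopc _).mp (hlt x)
    refine heqv _ _ ?_ ?_ h1
    · refine le_bot_iff.mp ((hmono _ {d | x < d}ᶜ ?_).trans hxc.le)
      rintro d ⟨⟨⟨h2, h3⟩, h4⟩, h5⟩ h6
      apply h5
      refine ⟨h2, ?_⟩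
      obtain ⟨m0, -, hm0⟩ := (hC.en d h2).surjOn h6
      by_contra h7
      have h8 : x < e d n := lt_of_le_of_ne h3 (Ne.symm h7)
      have h9 := mem_iInter.mp h4 m0
      apply h9
      refine ⟨⟨h2, ?_⟩, h2, ?_⟩
      · rw [hm0]
        exact h8
      · rw [hm0]
    · have h2 : {d | (Iio d).Infinite ∧ e d n = x} \ ({d | (Iio d).Infinite ∧ x ≤ e d n} ∩
        ⋂ m, ({d | (Iio d).Infinite ∧ e d m < e d n} ∩
          {d | (Iio d).Infinite ∧ x ≤ e d m})ᶜ) = ∅ := by
        ext d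
        refine ⟨?_, fun h => h.elim⟩
        rintro ⟨⟨h3, h4⟩, h5⟩
        apply h5
        refine ⟨⟨h3, h4.ge⟩, mem_iInter.mpr fun m => ?_⟩
        rintro ⟨⟨-, h6⟩, -, h7⟩
        rw [h4] at h6
        exact absurd h6 (not_lt.mpr h7)
      rw [h2, hemp]

end MP33c03aR
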