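import Pool.Agent.Work.MP_33c03a_lc.StmtsB

/-!
Block R (MP_33c03a_lc), item Cbs: closure functions give clubs.
-/

open Set

namespace MP33c03aR

/-- the stages of the closure -/
def Cbs_st (G : ℕ → List ZFSet.{0} → ZFSet.{0}) (S : Set ZFSet.{0}) : ℕ → Set ZFSet.{0}
  | 0 => S
  | n + 1 => Cbs_st G S n ∪
      Set.range (fun p : ℕ × List (Cbs_st G S n) => G p.1 (p.2.map Subtype.val))

theorem Cbs_countable (G : ℕ → List ZFSet.{0} → ZFSet.{0}) (S : Set ZFSet.{0}) (hS : S.Countable) :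
    ∀ n, (Cbs_st G S n).Countable := by
  intro n
  induction n with
  | zero => exact hS
  | succ n ih =>
    haveI : Countable (Cbs_st G S n) := ih.to_subtype
    exact ih.union (Set.countable_range _)

theorem Cbs_mono (G : ℕ → List ZFSet.{0} → ZFSet.{0}) (S : Set ZFSet.{0}) :
    ∀ m n, m ≤ n → Cbs_st G S m ⊆ Cbs_st G S n := by
  intro m n h
  induction n, h using Nat.le_induction with
  | base => exact subset_rfl
  | succ n _ ih => exact ih.trans subset_union_left

theorem Cbs_step (G : ℕ → List ZFSet.{0} → ZFSet.{0}) (S : Set ZFSet.{0}) (n i : ℕ)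
    (l : List ZFSet.{0}) (hl : ∀ z ∈ l, z ∈ Cbs_st G S n) : G i l ∈ Cbs_st G S (n + 1) := by
  refine Or.inr ⟨(i, l.attach.map (fun z => ⟨z.1, hl z.1 z.2⟩)), ?_⟩
  dsimp only
  rw [List.map_map]
  congr 1
  exact List.attach_map_subtype_val l

/-- a list of elements of an increasing union lies in one of the sets -/
theorem Cbs_list (f : ℕ → Set ZFSet.{0}) (hf : ∀ m n, m ≤ n → f m ⊆ f n) :
    ∀ l : List ZFSet.{0}, (∀ z ∈ l, ∃ n, z ∈ f n) → ∃ n, ∀ z ∈ l, z ∈ f n := by
  intro l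
  induction l with
  | nil => intro _; exact ⟨0, by simp⟩
  | cons a l ih =>
    intro h
    obtain ⟨m, hm⟩ := h a (by simp)
    obtain ⟨n, hn⟩ := ih (fun z hz => h z (by simp [hz]))
    refine ⟨max m n, fun z hz => ?_⟩
    rcases List.mem_cons.1 hz with rfl | hz
    · exact hf m _ (le_max_left _ _) hm
    · exact hf n _ (le_max_right _ _) (hn z hz)

theorem pr_Cbs (hRan : StRan) : StCbs := by
  intro θ G hG
  refine ⟨fun Y hY => ⟨hY.1, hY.2.1⟩, ?_, ?_⟩
  · intro Y hY hYH
    obtain ⟨T, hT⟩ : ∃ T : ℕ → Set ZFSet.{0}, T = Cbs_st G {z | z ∈ Y} := ⟨_, rfl⟩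
    have hTc : (⋃ n, T n).Countable := by
      rw [hT]
      exact Set.countable_iUnion (Cbs_countable G {z | z ∈ Y} hY)
    have hTH : ∀ n, ∀ z ∈ T n, z ∈ HH θ := by
      intro n
      rw [hT]
      induction n with
      | zero => exact hYH
      | succ n ih =>
        rintro z (hz | ⟨p, rfl⟩)
        · exact ih z hz
        · refine hG _ _ fun z hz => ?_
          obtain ⟨w, _, rfl⟩ := List.mem_map.1 hz
          exact ih w.1 w.2
    obtain ⟨Z, hZ, hZc⟩ := hRan (⋃ n, T n) hTc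
    refine ⟨Z, ⟨hZc, ?_, ?_⟩, ?_⟩
    · intro z hz
      obtain ⟨n, hn⟩ := Set.mem_iUnion.1 ((hZ z).1 hz)
      exact hTH n z hn
    · intro i l hl
      obtain ⟨n, hn⟩ := Cbs_list T (by rw [hT]; exact Cbs_mono G _) l
        (fun z hz => Set.mem_iUnion.1 ((hZ z).1 (hl z hz)))
      refine (hZ _).2 (Set.mem_iUnion.2 ⟨n + 1, ?_⟩)
      rw [hT] at hn ⊢
      exact Cbs_step G _ n i l hn
    · intro z hz
      refine (hZ z).2 (Set.mem_iUnion.2 ⟨0, ?_⟩)
      rw [hT]
      exact hz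
  · intro f hf hmono Z hZ
    have hm : ∀ m n, m ≤ n → {z | z ∈ f m} ⊆ {z | z ∈ f n} := by
      intro m n h
      induction n, h using Nat.le_induction with
      | base => exact subset_rfl
      | succ n _ ih => exact fun z hz => hmono n (ih hz)
    refine ⟨?_, ?_, ?_⟩
    · have h1 : {z | z ∈ Z} = ⋃ n, {z | z ∈ f n} := by
        ext z
        rw [Set.mem_iUnion]
        exact hZ z
      unfold Ctb
      rw [h1]
      exact Set.countable_iUnion fun n => (hf n).1
    · intro z hz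
      obtain ⟨n, hn⟩ := (hZ z).1 hz
      exact (hf n).2.1 z hn
    · intro i l hl
      obtain ⟨n, hn⟩ := Cbs_list (fun n => {z | z ∈ f n}) hm l (fun z hz => (hZ z).1 (hl z hz))
      exact (hZ _).2 ⟨n, (hf n).2.2 i l hn⟩

end MP33c03aR
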