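import Pool.Agent.Work.MP_33c03a_lc.StmtsB

/-!
Item Ccl of block R (MP_33c03a_lc): the club of the heights of limit index.
-/

open Set

namespace MP33c03aR

private theorem Ccl_le (c : Ordinal.{0} → Ordinal.{0}) (hc : Cseq c) :
    ∀ ξ < Ordinal.omega 1, ξ ≤ c ξ := by
  intro ξ
  induction ξ using WellFoundedLT.induction with
  | ind ξ ih =>
    intro hξ
    by_contra hlt
    rw [not_le] at hlt
    have h1 := ih (c ξ) hlt (hlt.trans hξ)
    exact absurd (hc.mono _ _ hlt hξ) (not_lt.mpr h1)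

private theorem Ccl_lt (c : Ordinal.{0} → Ordinal.{0}) (hc : Cseq c) (ξ η : Ordinal.{0})
    (hξ : ξ < Ordinal.omega 1) (h : c ξ < c η) : ξ < η := by
  by_contra h1
  rw [not_lt] at h1
  rcases h1.eq_or_lt with h2 | h2
  · rw [h2] at h
    exact lt_irrefl _ h
  · exact lt_asymm h (hc.mono _ _ h2 hξ)

private theorem Ccl_main (c : Ordinal.{0} → Ordinal.{0}) (hc : Cseq c) (d : W1)
    (hd : LimPt {d : W1 | ∃ ν < Ordinal.omega 1, Order.IsSuccLimit ν ∧ d.1 = c ν} d) :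
      ∃ ν < Ordinal.omega 1, LL ν ∧ d.1 = c ν := by
  obtain ⟨⟨y0, hy0⟩, hd2⟩ := hd
  have hlim : ∀ y : Ordinal.{0}, y < d.1 → ∃ μ < Ordinal.omega 1, Order.IsSuccLimit μ ∧
      y < c μ ∧ c μ < d.1 := by
    intro y hy
    obtain ⟨z, ⟨μ, h1, h2, h3⟩, h4, h5⟩ := hd2 ⟨y, hy.trans d.2⟩ hy
    refine ⟨μ, h1, h2, ?_, ?_⟩
    · rw [← h3]
      exact h4
    · rw [← h3]
      exact h5
  have hex : ∃ ν : Ordinal.{0}, d.1 ≤ c ν := ⟨d.1, Ccl_le c hc d.1 d.2⟩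
  obtain ⟨ν, hν, hmin⟩ := WellFounded.has_min (wellFounded_lt (α := Ordinal.{0}))
    {ν | d.1 ≤ c ν} hex
  have hνd : ν ≤ d.1 := not_lt.mp (hmin d.1 (Ccl_le c hc d.1 d.2))
  have hν1 : ν < Ordinal.omega 1 := lt_of_le_of_lt hνd d.2
  have hbelow : ∀ ξ < ν, c ξ < d.1 := by
    intro ξ hξ
    by_contra h1
    exact hmin ξ (not_lt.mp h1) hξ
  have hμν : ∀ μ < Ordinal.omega 1, c μ < d.1 → μ < ν := fun μ hμ h1 =>
    Ccl_lt c hc μ ν hμ (lt_of_lt_of_le h1 hν)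
  have hLim : Order.IsSuccLimit ν := by
    rcases Ordinal.zero_or_succ_or_isSuccLimit ν with h1 | ⟨η, h1⟩ | h1
    · obtain ⟨μ, h2, h3, h4, h5⟩ := hlim y0.1 hy0
      have h6 := hμν μ h2 h5
      rw [h1] at h6
      exact absurd h6 (not_lt.mpr zero_le)
    · have h2 : η < ν := by
        rw [← h1]
        exact Order.lt_succ η
      obtain ⟨μ, h3, h4, h5, h6⟩ := hlim (c η) (hbelow η h2)
      have h7 : η < μ := Ccl_lt c hc η μ (h2.trans hν1) h5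
      have h8 : μ < ν := hμν μ h3 h6
      rw [← h1] at h8
      exact absurd h7 (not_lt.mpr (Order.lt_succ_iff.mp h8))
    · exact h1
  refine ⟨ν, hν1, ⟨hLim, fun ξ hξ => ?_⟩, ?_⟩
  · obtain ⟨μ, h3, h4, h5, h6⟩ := hlim (c ξ) (hbelow ξ hξ)
    exact ⟨μ, Ccl_lt c hc ξ μ (hξ.trans hν1) h5, hμν μ h3 h6, h4⟩
  · refine le_antisymm hν ?_
    by_contra h1
    rw [not_le] at h1
    obtain ⟨ξ, h2, h3⟩ := hc.cont ν hν1 hLim d.1 h1
    exact lt_asymm h3 (hbelow ξ h2)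

theorem pr_Ccl : StCcl := by
  intro c hc
  refine ⟨⟨?_, ?_⟩, Ccl_main c hc⟩
  · intro x
    have h1 : x.1 + Ordinal.omega0 < Ordinal.omega 1 :=
      Ordinal.isPrincipal_add_omega 1 x.2 Ordinal.omega0_lt_omega_one
    refine ⟨⟨c (x.1 + Ordinal.omega0), hc.lt _ h1⟩, ⟨_, h1, ?_, rfl⟩, ?_⟩
    · exact Ordinal.isSuccLimit_add _ Ordinal.isSuccLimit_omega0
    · have h2 : x.1 < x.1 + Ordinal.omega0 := by
        conv_lhs => rw [← add_zero x.1]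
        exact (add_lt_add_iff_left x.1).mpr Ordinal.omega0_pos
      show x.1 < c (x.1 + Ordinal.omega0)
      exact lt_of_lt_of_le h2 (Ccl_le c hc _ h1)
  · intro x hx
    obtain ⟨ν, h1, h2, h3⟩ := Ccl_main c hc x hx
    exact ⟨ν, h1, h2.1, h3⟩

end MP33c03aR
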