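import Pool.Agent.Work.MP_33c03a_lc.StmtsB

open Set

namespace MP33c03aR

theorem pr_Chm : StChm := by
  intro θ N C ξ η
  induction η using Ordinal.limitRecOn with
  | zero =>
    intro h
    exact absurd h not_lt_zero
  | add_one ζ ih =>
    intro h1 h2
    have hζ : ζ < Ordinal.omega 1 := (lt_add_one ζ).trans h2
    have e1 : N ζ ∈ N (ζ + 1) := C.mem ζ hζ
    have e2 : N ζ ⊆ N (ζ + 1) := (C.gd (ζ + 1) h2).ctb _ e1 (C.gd ζ hζ).ct
    rcases (Order.lt_add_one_iff.1 h1).lt_or_eq with h | h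
    · obtain ⟨i1, i2⟩ := ih h hζ
      exact ⟨e2 i1, fun z hz => e2 (i2 hz)⟩
    · subst h
      exact ⟨e1, e2⟩
  | limit ν hν ih =>
    intro h1 h2
    have hs : ξ + 1 < ν := hν.succ_lt h1
    refine ⟨(C.cont ν h2 hν _).2 ⟨ξ + 1, hs, C.mem ξ (h1.trans h2)⟩, fun z hz => ?_⟩
    exact (C.cont ν h2 hν _).2 ⟨ξ, h1, hz⟩

end MP33c03aR
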