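import Pool.Agent.Work.MP_33c03a_lc.StmtsA

open Set

namespace MP33c03aR

universe u

theorem pr_Clb (hNul : StNul.{u}) (hCnt : StCnt.{u}) (hDia : StDia.{u}) : StClb.{u} := by
  intro W _ _ B _ h O H C hC
  obtain ⟨n1, n2, n3, n4, n5, n6⟩ := hNul W B h H
  obtain ⟨c1, c2, -⟩ := hCnt W B h O H
  choose f hf1 hf2 using hC.1
  have hne : Nonempty W := by
    by_contra hc
    rw [not_nonempty_iff] at hc
    exact O.2 (by rw [univ_eq_empty_iff.2 hc]; exact countable_empty)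
  obtain ⟨w⟩ := hne
  have h1 : h {d | ∀ x < d, f x < d} = ⊤ := by
    have := hDia W B h H (fun x => {d | f x < d})
    simp only [mem_ofPred_eq] at this
    rw [this]
    simp only [c2, iInf_top]
  have h2 : h ({d | ∀ x < d, f x < d} ∩ {d | w < d}) = ⊤ := by
    rw [H.inter, h1, c2]; simp
  have h3 : {d | ∀ x < d, f x < d} ∩ {d | w < d} ⊆ {d | LimPt C d} := by
    rintro d ⟨hd1, hd2⟩
    exact ⟨⟨w, hd2⟩, fun y hy => ⟨f y, hf1 y, hf2 y, hd1 y hy⟩⟩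
  have h4 : h {d | LimPt C d} = ⊤ := top_le_iff.1 (h2 ▸ n2 _ _ h3)
  refine ⟨?_, h4⟩
  exact top_le_iff.1 (h4 ▸ n2 _ _ (fun d hd => hC.2 d hd))

end MP33c03aR
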