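import Pool.Agent.Work.MP_33c03a_lc.StmtsA

open Set

namespace MP33c03aR

universe u

theorem pr_Cls (hCnt : StCnt.{u}) (hDia : StDia.{u}) : StCls.{u} := by
  intro W _ _ B _ h O H F
  obtain ⟨-, c2, -⟩ := hCnt W B h O H
  have D := hDia W B h H
  have e1 : ∀ a b c, h {d | ∀ c' < d, F a b c c' < d} = ⊤ := by
    intro a b c
    have := D (fun c' => {d | F a b c c' < d})
    simp only [mem_setOf_eq] at this
    rw [this]
    simp only [c2, iInf_top]
  have e2 : ∀ a b, h {d | ∀ c < d, ∀ c' < d, F a b c c' < d} = ⊤ := by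
    intro a b
    have := D (fun c => {d | ∀ c' < d, F a b c c' < d})
    simp only [mem_setOf_eq] at this
    rw [this]
    simp only [e1, iInf_top]
  have e3 : ∀ a, h {d | ∀ b < d, ∀ c < d, ∀ c' < d, F a b c c' < d} = ⊤ := by
    intro a
    have := D (fun b => {d | ∀ c < d, ∀ c' < d, F a b c c' < d})
    simp only [mem_setOf_eq] at this
    rw [this]
    simp only [e2, iInf_top]
  have := D (fun a => {d | ∀ b < d, ∀ c < d, ∀ c' < d, F a b c c' < d})
  simp only [mem_setOf_eq] at this
  rw [this]
  simp only [e3, iInf_top]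

end MP33c03aR
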