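import Pool.Agent.Work.MP_33c03a_lc.StmtsA

open Set

namespace MP33c03aR

universe u

theorem pr_Cnt (hNul : StNul.{u}) (hFst : StFst) (hSig : StSig.{u}) : StCnt.{u} := by
  intro W _ _ B _ h O H
  obtain ⟨n1, n2, n3, n4, n5, n6⟩ := hNul W B h H
  have c1 : ∀ A : Set W, A.Countable → h A = ⊥ := by
    intro A hA
    rcases A.eq_empty_or_nonempty with rfl | hne
    · exact n1
    · obtain ⟨f, rfl⟩ := hA.exists_eq_range hne
      have : range f = ⋃ n, {f n} := by
        ext y; simp [eq_comm]
      rw [this, hSig W B h O H]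
      simp only [H.single, iSup_bot]
  refine ⟨c1, fun x => ?_, ?_⟩
  · rw [n5]
    apply c1
    have : {d | x < d}ᶜ = Iio x ∪ {x} := by
      ext y
      simp only [mem_compl_iff, mem_ofPred_eq, not_lt, mem_union, mem_Iio, mem_singleton_iff]
      exact le_iff_lt_or_eq
    rw [this]
    exact (O.1 x).union (countable_singleton x)
  · rw [n5]
    apply c1
    obtain ⟨w, hw1, hw2, hw3⟩ := hFst W O
    apply (countable_range w).mono
    intro d hd
    by_contra hdr
    apply hd
    have : ∀ n, w n < d := by
      intro n
      rcases lt_trichotomy (w n) d with h | h | h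
      · exact h
      · exact absurd ⟨n, h⟩ hdr
      · obtain ⟨m, hm⟩ := hw3 n d h
        exact absurd ⟨m, hm.symm⟩ hdr
    exact (infinite_range_of_injective hw1.injective).mono (by
      rintro _ ⟨n, rfl⟩
      exact this n)

end MP33c03aR
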