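import Pool.Agent.Work.MP_33c03a_lc.StmtsA

/-!
Block R (MP_33c03a_lc), item Cod: a pairing function, and uncountable sets have the size of `W`.
-/

open Set

namespace MP33c03aR

open Cardinal in
theorem Cod_mk_eq (W : Type 1) [LinearOrder W] [WellFoundedLT W] (hW : Om1 W) :
    #W = ℵ₁ := by
  apply le_antisymm
  · have h1 : Ordinal.type (fun x y : W => x < y) ≤ (ℵ₁ : Cardinal.{1}).ord := by
      refine le_of_forall_lt (fun o ho => ?_)
      obtain ⟨x, rfl⟩ := Ordinal.typein_surj (fun x y : W => x < y) ho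
      rw [Cardinal.lt_ord]
      have h2 : (Ordinal.typein (fun x y : W => x < y) x).card = #(Iio x) := rfl
      rw [h2]
      have h3 : #(Iio x) ≤ ℵ₀ := Cardinal.le_aleph0_iff_set_countable.mpr (hW.1 x)
      exact lt_of_le_of_lt h3 Cardinal.aleph0_lt_aleph_one
    have h4 := Ordinal.card_le_card h1
    rwa [Cardinal.card_ord] at h4
  · have h1 : ℵ₀ < #W := by
      rw [← not_le]
      intro h
      apply hW.2
      rw [← Cardinal.le_aleph0_iff_set_countable]
      rw [Cardinal.mk_univ]
      exact h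
    rw [← Cardinal.succ_aleph0]
    exact Order.succ_le_of_lt h1

open Cardinal in
theorem pr_Cod : StCod := by
  intro W _ _ hW
  have hmk := Cod_mk_eq W hW
  have hinf : ℵ₀ ≤ (ℵ₁ : Cardinal.{1}) := Cardinal.aleph0_le_aleph 1
  constructor
  · have h1 : #(W × W) = #W := by
      rw [Cardinal.mk_prod, Cardinal.lift_id, hmk]
      exact Cardinal.mul_eq_self hinf
    obtain ⟨e⟩ := Cardinal.eq.mp h1
    refine ⟨fun a b => e (a, b), fun a b a' b' h => ?_⟩
    have h2 := e.injective h
    exact ⟨congrArg Prod.fst h2, congrArg Prod.snd h2⟩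
  · intro K hK
    have hK1 : #K ≤ ℵ₁ := by
      refine (Cardinal.mk_set_le K).trans ?_
      rw [Cardinal.mk_prod, Cardinal.mk_prod]
      simp only [Cardinal.lift_id, Cardinal.mk_fintype, Fintype.card_bool, Nat.cast_ofNat,
        hmk, Cardinal.lift_ofNat, Cardinal.lift_aleph, Ordinal.lift_one]
      calc (ℵ₁ : Cardinal.{1}) * (2 * ℵ₁) ≤ ℵ₁ * (ℵ₁ * ℵ₁) := by
            gcongr
            exact le_trans (Cardinal.ofNat_lt_aleph0).le hinf
        _ = ℵ₁ := by rw [Cardinal.mul_eq_self hinf, Cardinal.mul_eq_self hinf]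
    have hK2 : ℵ₁ ≤ #K := by
      have h1 : ℵ₀ < #K := by
        rw [← not_le]
        intro h
        exact hK (Cardinal.le_aleph0_iff_set_countable.mp h)
      rw [← Cardinal.succ_aleph0]
      exact Order.succ_le_of_lt h1
    obtain ⟨e⟩ := Cardinal.eq.mp ((le_antisymm hK1 hK2).trans hmk.symm)
    classical
    have hne : Nonempty W := by
      by_contra hne
      rw [not_nonempty_iff] at hne
      exact hW.2 (Set.to_countable _)
    obtain ⟨w0⟩ := hne
    refine ⟨fun p => if h : p ∈ K then e ⟨p, h⟩ else w0, fun _ _ => mem_univ _, ?_, ?_⟩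
    · intro p hp q hq hpq
      simp only [hp, hq, dif_pos] at hpq
      exact congrArg Subtype.val (e.injective hpq)
    · intro w _
      refine ⟨(e.symm w : W × Bool × W), (e.symm w).2, ?_⟩
      simp only [(e.symm w).2, dif_pos, Subtype.coe_eta, Equiv.apply_symm_apply]

end MP33c03aR
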