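import Pool.Agent.Work.MP_33c03a_lc.StmtsB

open Set

namespace MP33c03aR

theorem pr_Ctl : StCtl := by
  intro θ
  refine ⟨?_, ?_, ?_, ?_, ?_, ?_⟩
  · rintro P Q ⟨G1, h1, k1⟩ ⟨G2, h2, k2⟩
    refine ⟨fun i => if i % 2 = 0 then G1 (i / 2) else G2 (i / 2), ?_, ?_⟩
    · intro i l hl
      dsimp only
      split
      · exact h1 _ l hl
      · exact h2 _ l hl
    · intro M hM hs hc
      refine ⟨k1 M hM hs fun i l hl => ?_, k2 M hM hs fun i l hl => ?_⟩
      · have := hc (2 * i) l hl
        dsimp only at this
        rw [if_pos (by omega)] at this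
        rwa [show 2 * i / 2 = i by omega] at this
      · have := hc (2 * i + 1) l hl
        dsimp only at this
        rw [if_neg (by omega)] at this
        rwa [show (2 * i + 1) / 2 = i by omega] at this
  · rintro P Q ⟨G, h, k⟩ hPQ
    exact ⟨G, h, fun M hM hs hc => hPQ M (k M hM hs hc)⟩
  · intro a ha
    exact ⟨fun _ _ => a, fun _ _ _ => ha, fun M _ _ hc => hc 0 [] (by simp)⟩
  · intro f h0 hf
    refine ⟨fun _ l => match l with
      | [x] => f x
      | _ => ∅, ?_, ?_⟩
    · intro i l hl
      dsimp only
      split
      · exact hf _ (hl _ (by simp))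
      · exact h0
    · intro M _ _ hc x hx
      exact hc 0 [x] (by simpa using hx)
  · intro f h0 hf
    refine ⟨fun n l => match l with
      | [x] => f n x
      | _ => ∅, ?_, ?_⟩
    · intro i l hl
      dsimp only
      split
      · exact hf _ _ (hl _ (by simp))
      · exact h0
    · intro M _ _ hc n x hx
      exact hc n [x] (by simpa using hx)
  · intro f h0 hf
    refine ⟨fun _ l => match l with
      | [x, y, z] => f x y z
      | _ => ∅, ?_, ?_⟩
    · intro i l hl
      dsimp only
      split
      · exact hf _ (hl _ (by simp)) _ (hl _ (by simp)) _ (hl _ (by simp))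
      · exact h0
    · intro M _ _ hc x hx y hy z hz
      exact hc 0 [x, y, z] (by
        intro w hw
        simp only [List.mem_cons, List.not_mem_nil, or_false] at hw
        rcases hw with rfl | rfl | rfl
        · exact hx
        · exact hy
        · exact hz)

end MP33c03aR
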