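import Pool.Agent.Work.MP_33c03a_lc.StmtsA

/-!
Item Den of block R (MP_33c03a_lc): a dense family of measured sets.
-/

open Set

namespace MP33c03aR

universe u

theorem pr_Den (hNul : StNul.{u}) (hDia : StDia.{u}) (hMea : StMea.{u}) : StDen.{u} := by
  intro W _ _ B _ h B0 e hC
  obtain ⟨hemp, hmono, -, -, htopc, htopi⟩ := hNul W B h hC.nh
  obtain ⟨hbot, htop, hcompl, hinter, hunion, hUn, hUd, hUg, heqv, -⟩ := hMea W B h B0 e hC
  obtain ⟨dd, hdd, hdd0, hdense⟩ := hC.dens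
  -- the sets `A(a, a2)`
  have hch : ∀ a a2 : W, ∃ A : Set W, h A ∈ B0 ∧ dd a ≤ h A ∧
      ((∃ A', h A' ∈ B0 ∧ dd a ≤ h A' ∧ dd a2 ⊓ h A' = ⊥) → dd a2 ⊓ h A = ⊥) := by
    intro a a2
    by_cases hex : ∃ A', h A' ∈ B0 ∧ dd a ≤ h A' ∧ dd a2 ⊓ h A' = ⊥
    · obtain ⟨A', h1, h2, h3⟩ := hex
      exact ⟨A', h1, h2, fun _ => h3⟩
    · refine ⟨univ, htop _ hC.nh.top, ?_, fun h1 => absurd h1 hex⟩
      rw [hC.nh.top]
      exact le_top
  choose A hA1 hA2 hA3 using hch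
  have hS1 : ∀ a, h {d | ∀ x < d, d ∈ A a x} ∈ B0 := fun a =>
    (hUd (fun x => A a x) fun x => hA1 a x).2
  have hS2 : ∀ a, h {d | ∀ x < d, d ∈ A a x} = ⨅ x, h (A a x) := fun a =>
    hDia W B h hC.nh (fun x => A a x)
  have hS3 : ∀ a, dd a ≤ h {d | ∀ x < d, d ∈ A a x} := by
    intro a
    rw [hS2 a]
    exact le_iInf fun x => hA2 a x
  refine ⟨fun a => {d | ∀ x < d, d ∈ A a x}, hS1, ?_, ?_⟩
  · intro a h1
    exact hdd0 a (le_bot_iff.mp ((hS3 a).trans h1.le))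
  · intro A' hA' hA'0
    obtain ⟨a, ha⟩ := hdense _ hA' hA'0
    refine ⟨a, ?_⟩
    by_contra hcon
    have h1 : h ({d | ∀ x < d, d ∈ A a x} ∩ A'ᶜ) ≠ ⊥ := by
      intro h2
      apply hcon
      rw [hC.nh.inter, hC.nh.compl] at h2
      have h3 : Disjoint (h {d | ∀ x < d, d ∈ A a x}) (h A')ᶜ := disjoint_iff.mpr h2
      exact disjoint_compl_right_iff.mp h3
    obtain ⟨a2, ha2⟩ := hdense _ (hinter _ _ (hS1 a) (hcompl _ hA')) h1
    rw [hC.nh.inter, hC.nh.compl] at ha2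
    have h2 : dd a2 ⊓ h A' = ⊥ := by
      refine le_bot_iff.mp ?_
      calc dd a2 ⊓ h A' ≤ (h A')ᶜ ⊓ h A' := inf_le_inf_right _ (ha2.trans inf_le_right)
        _ ≤ ⊥ := by rw [compl_inf_self]
    have h3 := hA3 a a2 ⟨A', hA', ha, h2⟩
    apply hdd0 a2
    refine le_bot_iff.mp ?_
    calc dd a2 ≤ dd a2 ⊓ h (A a a2) := by
          refine le_inf le_rfl ((ha2.trans inf_le_left).trans ?_)
          rw [hS2 a]
          exact iInf_le _ a2
      _ ≤ ⊥ := h3.le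

end MP33c03aR
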