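import Pool.Agent.Work.MP_33c03a_lc.StmtsA

/-!
Block R (MP_33c03a_lc), item Det: the running maximum is determined by the state.
-/

open Set

namespace MP33c03aR

universe u

private theorem Det_one {W : Type 1} [LinearOrder W] {B : Type u} [CompleteBooleanAlgebra B]
    {h : Set W → B} {B0 : Set B} {e : W → ℕ → W} {S : W → Set W} {code : W → W → W}
    {st x : ℕ → W → W} (sq : Sq h B0 e S code st x) :
    ∀ n d d', st (n + 1) d = st (n + 1) d' → ymax x n d = ymax x n d' := by
  intro n
  induction n with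
  | zero =>
    intro d d' hd
    rw [sq.stS 0 d, sq.stS 0 d'] at hd
    exact (sq.inj _ _ _ _ hd).2
  | succ n ih =>
    intro d d' hd
    rw [sq.stS (n + 1) d, sq.stS (n + 1) d'] at hd
    obtain ⟨h1, h2⟩ := sq.inj _ _ _ _ hd
    show max (ymax x n d) (x (n + 1) d) = max (ymax x n d') (x (n + 1) d')
    rw [ih d d' h1, h2]

theorem pr_Det (hMea : StMea.{u}) : StDet.{u} := by
  intro W _ _ B _ h B0 e ctx S _ code st x sq
  have h1 := Det_one sq
  have hne : Nonempty W := by
    by_contra hn
    rw [not_nonempty_iff] at hn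
    apply ctx.om.2
    exact Set.countable_univ_iff.2 inferInstance
  refine ⟨h1, ?_, ?_, ?_, ?_⟩
  · intro n a
    rcases n with _ | n
    · obtain ⟨m, -, hm⟩ := WellFounded.has_min (wellFounded_lt (α := W)) Set.univ
        ⟨hne.some, Set.mem_univ _⟩
      refine ⟨m, fun d _ => ?_⟩
      show x 0 d = max m (x 0 d)
      exact (max_eq_right (not_lt.1 (hm (x 0 d) (Set.mem_univ _)))).symm
    · by_cases hd : ∃ d0, st (n + 1) d0 = a
      · obtain ⟨d0, hd0⟩ := hd
        refine ⟨ymax x n d0, fun d hd => ?_⟩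
        show max (ymax x n d) (x (n + 1) d) = _
        rw [h1 n d d0 (hd.trans hd0.symm)]
      · exact ⟨hne.some, fun d hd' => absurd ⟨d, hd'⟩ hd⟩
  · intro n
    induction n with
    | zero => exact sq.rx 0
    | succ n ih =>
      have h2 : {d | ymax x (n + 1) d < d} = {d | ymax x n d < d} ∩ {d | x (n + 1) d < d} := by
        ext d
        show max (ymax x n d) (x (n + 1) d) < d ↔ ymax x n d < d ∧ x (n + 1) d < d
        exact max_lt_iff
      rw [h2, ctx.nh.inter, ih, sq.rx, top_inf_eq]
  · intro n d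
    exact le_max_left _ _
  · intro n E
    have h3 := (hMea W B h B0 e ctx).2.2.2.2.2.2.2.2.2 (st (n + 1)) (sq.rst (n + 1)).1
      (sq.rst (n + 1)).2 {a | ∃ d2, st (n + 1) d2 = a ∧ ymax x n d2 ∈ E}
    have h4 : {d | st (n + 1) d ∈ {a | ∃ d2, st (n + 1) d2 = a ∧ ymax x n d2 ∈ E}} =
        {d | ymax x n d ∈ E} := by
      ext d
      constructor
      · rintro ⟨d2, h5, h6⟩
        show ymax x n d ∈ E
        rw [h1 n d d2 h5.symm]
        exact h6
      · intro h5
        exact ⟨d, rfl, h5⟩
    rw [h4] at h3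
    exact h3

end MP33c03aR
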