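import Pool.Agent.Work.MP_33c03a_lc.StmtsA

open Set

namespace MP33c03aR

universe u

theorem pr_Dia : StDia.{u} := by
  intro W _ B _ h H A
  have : {d | ∀ x < d, d ∈ A x} = {d | ∃ x < d, d ∈ (A x)ᶜ}ᶜ := by
    ext d
    simp only [mem_setOf_eq, mem_compl_iff, not_exists, not_and, not_not]
  rw [this, H.compl, H.diag, compl_iSup]
  simp only [H.compl, compl_compl]

end MP33c03aR
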