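import Pool.Agent.Work.MP_33c03a_lc.StmtsA

/-!
Block R (MP_33c03a_lc), item Dns: the fibres are dense.
-/

open Set

namespace MP33c03aR

universe u

theorem pr_Dns (hNul : StNul.{u}) (hSig : StSig.{u}) (hCnt : StCnt.{u}) (hReg : StReg.{u}) :
    StDns.{u} := by
  intro W _ _ B _ h B0 e ctx S dF code st x sq A hA hA0
  obtain ⟨hemp, hmono, -, hdiff, -, htop⟩ := hNul W B h ctx.nh
  have hsig := hSig W B h ctx.om ctx.nh
  obtain ⟨-, hlt, hinf⟩ := hCnt W B h ctx.om ctx.nh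
  obtain ⟨-, hreg⟩ := hReg W B h ctx.om ctx.nh
  obtain ⟨-, hS0, hSd⟩ := dF
  obtain ⟨b, hbA⟩ := hSd A hA hA0
  have null : ∀ X Y : Set W, X ⊆ Y → h Y = ⊥ → h X = ⊥ := fun X Y hXY hY =>
    le_bot_iff.mp (hY ▸ hmono X Y hXY)
  -- some value of the enumeration
  have hn : ∃ n, h (S b ∩ {d | (Iio d).Infinite ∧ e d n = b}) ≠ ⊥ := by
    by_contra hcon
    have hcon' : ∀ n, h (S b ∩ {d | (Iio d).Infinite ∧ e d n = b}) = ⊥ := by
      intro n
      by_contra hne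
      exact hcon ⟨n, hne⟩
    have h1 : h (⋃ n, S b ∩ {d | (Iio d).Infinite ∧ e d n = b}) = ⊥ := by
      rw [hsig]
      simp only [hcon', iSup_bot]
    have h2 : h ({d | b < d} ∩ {d : W | (Iio d).Infinite}) = ⊤ := by
      rw [ctx.nh.inter, hlt, hinf, top_inf_eq]
    apply hS0 b
    rw [← htop (S b) _ h2]
    refine null _ _ ?_ h1
    rintro d ⟨hdS, hbd, hdi⟩
    obtain ⟨n, -, hn⟩ := (ctx.en d hdi).surjOn (show b ∈ Iio d from hbd)
    exact mem_iUnion.mpr ⟨n, hdS, hdi, hn⟩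
  obtain ⟨n, hn⟩ := hn
  obtain ⟨c, hc⟩ := hreg (st (n + 1)) (sq.rst (n + 1)).1 _ hn
  have hne : ((S b ∩ {d | (Iio d).Infinite ∧ e d n = b}) ∩ {d | st (n + 1) d = c}).Nonempty := by
    rw [nonempty_iff_ne_empty]
    intro h0
    rw [h0] at hc
    exact hc hemp
  obtain ⟨d0, -, hd0⟩ := hne
  have hd0' : st (n + 1) d0 = c := hd0
  have hP : {d | st (n + 1) d = c} = {d | st n d = st n d0 ∧ x n d = x n d0} := by
    ext d
    constructor
    · intro hd
      have hd1 : st (n + 1) d = c := hd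
      rw [← hd0', sq.stS, sq.stS] at hd1
      exact sq.inj _ _ _ _ hd1
    · rintro ⟨h1, h2⟩
      change st (n + 1) d = c
      rw [← hd0', sq.stS, sq.stS, h1, h2]
  have hpos : h {d | st n d = st n d0} ≠ ⊥ := by
    intro h0
    apply hc
    refine null _ _ ?_ h0
    rintro d ⟨-, hd⟩
    rw [hP] at hd
    exact hd.1
  obtain ⟨b2, hb2, hb3⟩ := sq.dec n _ hpos (x n d0)
  rw [← hP] at hb2 hb3
  have hbb : b2 = b := by
    by_contra hbb
    apply hc
    refine null _ _ ?_ hb2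
    rintro d ⟨⟨-, -, hd⟩, hd'⟩
    refine ⟨hd', fun hd2 => hbb ?_⟩
    rw [← hd2.2, hd]
  subst hbb
  have hPS : h ({d | st (n + 1) d = c} \ S b2) = ⊥ := by
    rcases hb3 with hb3 | hb3
    · exact hb3
    · exfalso
      apply hc
      refine null _ _ ?_ hb3
      rintro d ⟨⟨hd, -⟩, hd'⟩
      exact ⟨hd', hd⟩
  refine ⟨n + 1, c, ?_, ?_⟩
  · intro h0
    apply hc
    exact null _ _ (fun d hd => hd.2) h0
  · rw [hdiff]
    exact ((hdiff _ _).mp hPS).trans hbA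

end MP33c03aR
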