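import Pool.Agent.Work.MP_33c03a_lc.StmtsA

/-!
Block R, item Fin: the contradiction with the ladder form of Measuring.
-/

open Set

namespace MP33c03aR

universe u

private theorem Fin_mono {W : Type 1} [LinearOrder W] {x : ℕ → W → W}
    (h : ∀ n d, ymax x n d ≤ ymax x (n + 1) d) (d : W) : Monotone (fun n => ymax x n d) :=
  monotone_nat_of_le_succ (fun n => h n d)

theorem pr_Fin (hNul : StNul.{u}) (hSig : StSig.{u}) (hClb : StClb.{u}) (hDen : StDen.{u})
    (hSeq : StSeq.{u}) (hDet : StDet.{u}) (hMet : StMet.{u}) : StFin.{u} := by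
  classical
  intro W _ _ B _ h B0 e X hLM
  obtain ⟨S, hS⟩ := hDen W B h B0 e X
  obtain ⟨code, st, x, hq⟩ := hSeq W B h B0 e X S hS
  obtain ⟨-, -, hreg, hmon, -⟩ := hDet W B h B0 e X S hS code st x hq
  obtain ⟨n1, n2, n3, n4, n5, n6⟩ := hNul W B h X.nh
  let D : W → Set W := fun d =>
    if ∀ g < d, ∃ n, g < ymax x n d then range (fun n => ymax x n d) else ∅
  have hDf : ∀ d, ∀ g < d, (D d ∩ Iic g).Finite := by
    intro d g hg
    by_cases hc : ∀ g < d, ∃ n, g < ymax x n d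
    · obtain ⟨n, hn⟩ := hc g hg
      apply Set.Finite.subset ((Set.finite_Iio n).image (fun n => ymax x n d))
      simp only [D, if_pos hc]
      rintro _ ⟨⟨k, rfl⟩, hk⟩
      refine ⟨k, ?_, rfl⟩
      by_contra hkn
      have hkn' : n ≤ k := not_lt.1 hkn
      exact absurd (lt_of_lt_of_le hn (Fin_mono hmon d hkn')) (not_lt.2 hk)
    · simp only [D, if_neg hc, empty_inter, finite_empty]
  obtain ⟨C, hC, hC2⟩ := hLM D hDf
  have h1 : h {d | LimPt C d} = ⊤ := (hClb W B h X.om X.nh C hC).2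
  have h2 : h {d | ∀ g < d, ∃ n, ymax x n d ∈ C ∧ g < ymax x n d} = ⊤ :=
    hMet W B h B0 e X S hS code st x hq C (fun y => hC.1 y)
  have h3 : h (⋂ n, {d | ymax x n d < d}) = ⊤ := by
    rw [n5, compl_iInter, hSig W B h X.om X.nh]
    simp only [iSup_eq_bot]
    intro n
    exact (n5 _).1 (hreg n)
  have h4 : h ({d | LimPt C d} ∩ ({d | ∀ g < d, ∃ n, ymax x n d ∈ C ∧ g < ymax x n d} ∩
      ⋂ n, {d | ymax x n d < d})) = ⊤ := by
    rw [X.nh.inter, X.nh.inter, h1, h2, h3]; simp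
  have h5 : ({d | LimPt C d} ∩ ({d | ∀ g < d, ∃ n, ymax x n d ∈ C ∧ g < ymax x n d} ∩
      ⋂ n, {d | ymax x n d < d})).Nonempty := by
    by_contra hne
    rw [Set.not_nonempty_iff_eq_empty] at hne
    rw [hne, n1] at h4
    exact X.nt h4.symm
  obtain ⟨d, hd1, hd2, hd3⟩ := h5
  obtain ⟨a, ha, ha2⟩ := hC2 d hd1
  obtain ⟨n, hn1, hn2⟩ := hd2 a ha
  have hd3' : ymax x n d < d := by
    have := mem_iInter.1 hd3 n
    exact this
  apply ha2 _ hn1 hn2 hd3'
  have hc : ∀ g < d, ∃ n, g < ymax x n d := by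
    intro g hg
    obtain ⟨n, -, hn⟩ := hd2 g hg
    exact ⟨n, hn⟩
  simp only [D, if_pos hc]
  exact ⟨n, rfl⟩

end MP33c03aR
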