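import Pool.Agent.Work.MP_33c03a_lc.StmtsA

open Set

namespace MP33c03aR

theorem pr_Fst : StFst := by
  classical
  intro W _ _ O
  have hne : ∀ x : W, (Ioi x).Nonempty := by
    intro x
    by_contra hc
    rw [Set.not_nonempty_iff_eq_empty] at hc
    apply O.2
    have : (univ : Set W) ⊆ Iio x ∪ {x} := by
      intro y _
      rcases lt_trichotomy y x with h | h | h
      · exact Or.inl h
      · exact Or.inr h
      · have : y ∈ Ioi x := h
        rw [hc] at this
        exact absurd this (notMem_empty _)
    exact ((O.1 x).union (countable_singleton x)).mono this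
  have hune : (univ : Set W).Nonempty := by
    by_contra hc
    rw [Set.not_nonempty_iff_eq_empty] at hc
    apply O.2
    rw [hc]; exact countable_empty
  have wf : WellFounded ((· < ·) : W → W → Prop) := wellFounded_lt
  let w : ℕ → W := fun n => Nat.rec (wf.min univ hune) (fun _ y => wf.min (Ioi y) (hne y)) n
  have w0 : w 0 = wf.min univ hune := rfl
  have wS : ∀ n, w (n + 1) = wf.min (Ioi (w n)) (hne (w n)) := fun n => rfl
  refine ⟨w, strictMono_nat_of_lt_succ fun n => ?_, fun x hx => ?_, ?_⟩
  · rw [wS]; exact wf.min_mem _ (hne (w n))
  · exact wf.not_lt_min univ (mem_univ x) (by rw [← w0]; exact hx)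
  · intro n
    induction n with
    | zero =>
      intro x hx
      exact absurd hx (wf.not_lt_min univ (mem_univ x))
    | succ n ih =>
      intro x hx
      rcases lt_trichotomy x (w n) with h | h | h
      · exact ih x h
      · exact ⟨n, h⟩
      · exact absurd hx (wf.not_lt_min (Ioi (w n)) h)

end MP33c03aR
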