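import Pool.Agent.Work.MP_33c03a_lc.StmtsB

/-! Block R, item G1 (helper96): countable elements are subsets. -/

open Set

namespace MP33c03aR

open Classical in
/-- the `n`-th term of an enumeration of `Y` -/
private noncomputable def G1_f (n : ℕ) (Y : ZFSet.{0}) : ZFSet.{0} :=
  if h : ∃ g : ℕ → ZFSet.{0}, {z | z ∈ Y} = range g then h.choose n else ∅

private theorem G1_ex {Y : ZFSet.{0}} (hc : Ctb Y) {z : ZFSet.{0}} (hz : z ∈ Y) :
    ∃ g : ℕ → ZFSet.{0}, {z | z ∈ Y} = range g :=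
  Set.Countable.exists_eq_range hc ⟨z, hz⟩

private theorem G1_empty {θ : Cardinal.{0}} (hθ : θ.IsRegular) : (∅ : ZFSet.{0}) ∈ HH θ := by
  refine ⟨∅, ZFSet.isTransitive_empty, fun z hz => hz, ?_⟩
  rw [ZFSet.card_empty]
  exact hθ.pos

theorem pr_G1 (hH : StHtr) (hC : StCtl) : StG1 := by
  intro θ hθ
  have h0 := G1_empty hθ
  obtain ⟨_, h2, _, _, h5, _⟩ := hC θ
  refine h2 _ _ (h5 G1_f h0 ?_) ?_
  · intro n x hx
    unfold G1_f
    split_ifs with h
    · exact (hH θ x hx).1 _ (h.choose_spec.symm.subset ⟨n, rfl⟩)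
    · exact h0
  · intro M hM Y hY hc z hz
    have hex := G1_ex hc hz
    obtain ⟨n, hn⟩ := hex.choose_spec.subset hz
    have h7 := hM n Y hY
    unfold G1_f at h7
    rw [dif_pos hex, hn] at h7
    exact h7

end MP33c03aR
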