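import Pool.Agent.Work.MP_33c03a_lc.StmtsB

open Set

namespace MP33c03aR

theorem pr_G2 (hHtr : StHtr) (hCtl : StCtl) : StG2 := by
  classical
  intro θ hθ
  obtain ⟨c1, c2, c3, c4, c5, c6⟩ := hCtl θ
  have h0 : (∅ : ZFSet.{0}) ∈ HH θ := ⟨∅, ZFSet.isTransitive_empty, fun z hz => hz, by
    rw [ZFSet.card_empty]
    exact lt_of_lt_of_le Cardinal.aleph0_pos hθ.aleph0_le⟩
  refine c1 _ _ ?_ ?_
  · exact c4 (fun N => N ∩ O1) h0 (fun x hx => (hHtr θ x hx).2 _
      (fun z hz => (ZFSet.mem_inter.1 hz).1))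
  · refine c2 _ _ (c4 (fun E => if h : ∃ Y, Y ∈ E then h.choose else ∅) h0 ?_) ?_
    · intro x hx
      split
      · rename_i h
        exact (hHtr θ x hx).1 _ h.choose_spec
      · exact h0
    · intro M hM E hE hne
      have := hM E hE
      rw [dif_pos hne] at this
      exact ⟨_, hne.choose_spec, this⟩

end MP33c03aR
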