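import Pool.Agent.Work.MP_33c03a_lc.StmtsB

/-!
Item G3 of block R (MP_33c03a_lc): `M ∩ ω₁` is a limit ordinal.
-/

open Set

namespace MP33c03aR

private theorem G3_ctb {a : Ordinal.{0}} (ha : a < Ordinal.omega 1) : Ctb a.toZFSet := by
  have h1 : ({z | z ∈ a.toZFSet} : Set ZFSet.{0}) = Ordinal.toZFSet '' Iio a := by
    ext z
    rw [mem_ofPred_eq, Ordinal.mem_toZFSet_iff]
    rfl
  unfold Ctb
  rw [h1]
  apply Set.Countable.image
  have h2 : Cardinal.mk (Iio a) ≤ Cardinal.aleph0 := by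
    rw [Cardinal.mk_Iio_ordinal, Cardinal.lift_le_aleph0]
    have h3 : a.card < Cardinal.aleph 1 := Cardinal.lt_omega_iff_card_lt.mp ha
    rw [← Cardinal.succ_aleph0] at h3
    exact Order.lt_succ_iff.mp h3
  exact Cardinal.mk_le_aleph0_iff.mp h2

theorem pr_G3 (hHtr : StHtr) (hHx : StHx) (hCtl : StCtl) (hG1 : StG1) : StG3 := by
  classical
  intro θ hθ hX
  obtain ⟨-, hO1, hemp, hunc⟩ := hHx θ hθ hX
  obtain ⟨cand, -, cconst, cun, -⟩ := hCtl θ
  have hmemO1 : ∀ x : ZFSet.{0}, x ∈ O1 ↔ ∃ a < Ordinal.omega 1, a.toZFSet = x := fun x =>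
    Ordinal.mem_toZFSet_iff
  have hsucc : ∀ a : Ordinal.{0}, a < Ordinal.omega 1 → Order.succ a < Ordinal.omega 1 :=
    fun a ha => (Cardinal.isSuccLimit_omega 1).succ_lt ha
  have hP := cand _ _ (hG1 θ hθ) (cand _ _ (cconst ∅ hemp)
    (cun (fun x => if x ∈ O1 then insert x x else ∅) hemp (by
      intro x _
      by_cases hxO : x ∈ O1
      · simp only [if_pos hxO]
        obtain ⟨a, ha, rfl⟩ := (hmemO1 x).mp hxO
        rw [← Ordinal.toZFSet_add_one, ← Order.succ_eq_add_one]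
        exact (hHtr θ O1 hO1).1 _ ((hmemO1 _).mpr ⟨_, hsucc a ha, rfl⟩)
      · simp only [if_neg hxO]
        exact hemp)))
  obtain ⟨G, hG, hM⟩ := hP
  refine ⟨G, hG, fun M hct hsub hclo => ?_⟩
  obtain ⟨h1, h2, h3⟩ := hM M hct hsub hclo
  have hinit : ∀ a b : Ordinal.{0}, a < Ordinal.omega 1 → a.toZFSet ∈ M → b < a →
      b.toZFSet ∈ M := by
    intro a b ha haM hb
    exact h1 _ haM (G3_ctb ha) (Ordinal.toZFSet_mem_toZFSet_iff.mpr hb)
  obtain ⟨δ, hδ, hmin⟩ := WellFounded.has_min (wellFounded_lt (α := Ordinal.{0}))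
    {a | ¬ (a < Ordinal.omega 1 ∧ a.toZFSet ∈ M)} ⟨Ordinal.omega 1, fun h => lt_irrefl _ h.1⟩
  have hbelow : ∀ a < δ, a < Ordinal.omega 1 ∧ a.toZFSet ∈ M := by
    intro a ha
    by_contra h4
    exact hmin a h4 ha
  have habove : ∀ a, a < Ordinal.omega 1 → a.toZFSet ∈ M → a < δ := by
    intro a ha haM
    by_contra h4
    rw [not_lt] at h4
    apply hδ
    rcases h4.eq_or_lt with h5 | h5
    · rw [h5]
      exact ⟨ha, haM⟩
    · exact ⟨h5.trans ha, hinit a δ ha haM h5⟩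
  have hδ1 : δ < Ordinal.omega 1 := by
    have h4 : δ ≤ Ordinal.omega 1 := not_lt.mp (hmin (Ordinal.omega 1) (fun h => lt_irrefl _ h.1))
    rcases h4.lt_or_eq with h5 | h5
    · exact h5
    · exfalso
      apply hunc
      refine hct.mono ?_
      intro z hz
      obtain ⟨a, ha, rfl⟩ := (hmemO1 z).mp hz
      rw [← h5] at ha
      exact (hbelow a ha).2
  refine ⟨δ, hδ1, ?_, ?_⟩
  · rcases Ordinal.zero_or_succ_or_isSuccLimit δ with h4 | ⟨η, h4⟩ | h4
    · exfalso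
      have h5 : (0 : Ordinal.{0}) < δ := by
        apply habove
        · exact Ordinal.omega_pos 1
        · rw [Ordinal.toZFSet_zero]
          exact h2
      rw [h4] at h5
      exact lt_irrefl _ h5
    · exfalso
      have h5 : η < δ := by
        rw [← h4]
        exact Order.lt_succ η
      obtain ⟨h6, h7⟩ := hbelow η h5
      have h8 := h3 _ h7
      have h9 : η.toZFSet ∈ O1 := (hmemO1 _).mpr ⟨η, h6, rfl⟩
      simp only [if_pos h9] at h8
      rw [← Ordinal.toZFSet_add_one, ← Order.succ_eq_add_one] at h8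
      have h10 := habove _ (hsucc η h6) h8
      rw [h4] at h10
      exact lt_irrefl _ h10
    · exact h4
  · intro z
    constructor
    · rintro ⟨h4, h5⟩
      obtain ⟨a, ha, rfl⟩ := (hmemO1 z).mp h5
      exact Ordinal.toZFSet_mem_toZFSet_iff.mpr (habove a ha h4)
    · intro h4
      obtain ⟨a, ha, rfl⟩ := Ordinal.mem_toZFSet_iff.mp h4
      obtain ⟨h5, h6⟩ := hbelow a ha
      exact ⟨h6, (hmemO1 _).mpr ⟨a, h5, rfl⟩⟩

end MP33c03aR
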