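import Pool.Agent.Work.MP_33c03a_lc.StmtsB

/-!
Item G4 of block R (MP_33c03a_lc): `M ∩ ω₁` belongs to the clubs in `M`.
-/

open Set

namespace MP33c03aR

theorem pr_G4 (hHtr : StHtr) (hHx : StHx) (hCtl : StCtl) (hG1 : StG1) (hG2 : StG2) : StG4 := by
  classical
  intro θ hθ hX
  obtain ⟨-, hO1, hemp, -⟩ := hHx θ hθ hX
  obtain ⟨cand, -, cconst, -, -, cter⟩ := hCtl θ
  have hF : ∀ E Y x : ZFSet.{0}, ∃ W : ZFSet.{0},
      ((∃ Z ∈ E, Y ⊆ Z ∧ x ∈ Z) → W ∈ E ∧ Y ⊆ W ∧ x ∈ W) ∧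
      ((¬ ∃ Z ∈ E, Y ⊆ Z ∧ x ∈ Z) → W = ∅) := by
    intro E Y x
    by_cases h : ∃ Z ∈ E, Y ⊆ Z ∧ x ∈ Z
    · obtain ⟨Z, hZ⟩ := h
      exact ⟨Z, fun _ => hZ, fun h => absurd ⟨Z, hZ⟩ h⟩
    · exact ⟨∅, fun h' => absurd h' h, fun _ => rfl⟩
  choose F hF1 hF2 using hF
  have hP := cand _ _ (hG1 θ hθ) (cand _ _ (hG2 θ hθ) (cand _ _ (cconst ∅ hemp)
    (cter F hemp (by
      intro E hE Y _ x _
      by_cases h : ∃ Z ∈ E, Y ⊆ Z ∧ x ∈ Z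
      · exact (hHtr θ E hE).1 _ (hF1 E Y x h).1
      · rw [hF2 E Y x h]
        exact hemp))))
  obtain ⟨G, hG, hM⟩ := hP
  refine ⟨G, hG, fun M hct hsub hclo => ?_⟩
  obtain ⟨h1, ⟨-, h2⟩, h3, h4⟩ := hM M hct hsub hclo
  intro E hEM hE
  obtain ⟨c1, c2, c3⟩ := hE
  have hz0 : (∅ : ZFSet.{0}) ∈ O1 := by
    refine Ordinal.mem_toZFSet_iff.mpr ⟨0, Ordinal.omega_pos 1, ?_⟩
    exact Ordinal.toZFSet_zero
  obtain ⟨Y0, hY0E, hY0M⟩ := h2 E hEM (by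
    obtain ⟨Z, hZ, -⟩ := c2 ∅ (by
      unfold Ctb
      have h5 : ({z | z ∈ (∅ : ZFSet.{0})} : Set ZFSet.{0}) = ∅ := by
        ext z
        exact ⟨fun h => (ZFSet.notMem_empty z h).elim, fun h => h.elim⟩
      rw [h5]
      exact countable_empty) (fun z hz => (ZFSet.notMem_empty z hz).elim)
    exact ⟨Z, hZ⟩)
  have hne : ({z | z ∈ M ∧ z ∈ O1} : Set ZFSet.{0}).Nonempty := ⟨∅, h3, hz0⟩
  have hc : ({z | z ∈ M ∧ z ∈ O1} : Set ZFSet.{0}).Countable := hct.mono fun z hz => hz.1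
  obtain ⟨x, hx⟩ := hc.exists_eq_range hne
  have hxm : ∀ n, x n ∈ M ∧ x n ∈ O1 := by
    intro n
    have : x n ∈ ({z | z ∈ M ∧ z ∈ O1} : Set ZFSet.{0}) := by
      rw [hx]
      exact mem_range_self n
    exact this
  let Y : ℕ → ZFSet.{0} := fun n => Nat.rec Y0 (fun n Yn => F E Yn (x n)) n
  have hYs : ∀ n, Y (n + 1) = F E (Y n) (x n) := fun n => rfl
  have hex : ∀ n, Y n ∈ E → ∃ Z ∈ E, Y n ⊆ Z ∧ x n ∈ Z := by
    intro n hn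
    obtain ⟨Z, hZ, hZs⟩ := c2 (insert (x n) (Y n)) (by
      unfold Ctb
      have h5 : ({z | z ∈ (insert (x n) (Y n) : ZFSet.{0})} : Set ZFSet.{0}) =
          insert (x n) {z | z ∈ Y n} := by
        ext z
        exact ZFSet.mem_insert_iff
      rw [h5]
      exact (c1 _ hn).1.insert _) (by
      intro z hz
      rcases ZFSet.mem_insert_iff.mp hz with h5 | h5
      · rw [h5]
        exact (hxm n).2
      · exact (c1 _ hn).2 z h5)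
    refine ⟨Z, hZ, ?_, hZs (ZFSet.mem_insert _ _)⟩
    intro z hz
    exact hZs (ZFSet.mem_insert_of_mem _ hz)
  have hY : ∀ n, Y n ∈ E ∧ Y n ∈ M := by
    intro n
    induction n with
    | zero => exact ⟨hY0E, hY0M⟩
    | succ n ih =>
      have h5 := hex n ih.1
      have h6 := h4 E hEM (Y n) ih.2 (x n) (hxm n).1
      rw [hYs n]
      exact ⟨(hF1 _ _ _ h5).1, h6⟩
  have hY2 : ∀ n, Y n ⊆ Y (n + 1) ∧ x n ∈ Y (n + 1) := by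
    intro n
    have h5 := hex n (hY n).1
    rw [hYs n]
    exact (hF1 _ _ _ h5).2
  refine c3 Y (fun n => (hY n).1) (fun n => (hY2 n).1) (M ∩ O1) fun z => ?_
  rw [ZFSet.mem_inter]
  constructor
  · intro hz
    have h5 : z ∈ ({z | z ∈ M ∧ z ∈ O1} : Set ZFSet.{0}) := hz
    rw [hx] at h5
    obtain ⟨n, rfl⟩ := h5
    exact ⟨n + 1, (hY2 n).2⟩
  · rintro ⟨n, hn⟩
    exact ⟨h1 _ (hY n).2 (c1 _ (hY n).1).1 hn, (c1 _ (hY n).1).2 z hn⟩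

end MP33c03aR
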