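import Pool.Agent.Work.MP_33c03a_lc.StmtsB

open Set

namespace MP33c03aR

theorem pr_Hex : StHex := by
  intro x
  refine ⟨Order.succ (max Cardinal.aleph0 (ZFSet.vonNeumann x.rank).card),
    Cardinal.isRegular_succ (le_max_left _ _),
    ZFSet.vonNeumann x.rank, ZFSet.isTransitive_vonNeumann _, ?_, ?_⟩
  · exact ZFSet.subset_vonNeumann.2 le_rfl
  · exact Order.lt_succ_iff.2 (le_max_right _ _)

end MP33c03aR
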