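import Pool.Agent.Work.MP_33c03a_lc.StmtsB

open Set

namespace MP33c03aR

theorem pr_Htr : StHtr := by
  rintro θ x ⟨t, ht1, ht2, ht3⟩
  exact ⟨fun y hy => ⟨t, ht1, ht1 y (ht2 hy), ht3⟩, fun y hy => ⟨t, ht1, fun z hz => ht2 (hy hz), ht3⟩⟩

end MP33c03aR
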