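import Pool.Agent.Work.MP_33c03a_lc.StmtsB

/-!
Block R (MP_33c03a_lc, captain helper16), item Hts: the heights of the models of the chain.
-/

open Set

namespace MP33c03aR

theorem pr_Hts (hChm : StChm) : StHts := by
  classical
  intro θ N hN
  have hex : ∀ ξ : Ordinal.{0}, ∃ δ : Ordinal.{0}, ξ < Ordinal.omega 1 → Hgt (N ξ) δ := by
    intro ξ
    by_cases h : ξ < Ordinal.omega 1
    · obtain ⟨δ, hδ⟩ := (hN.gd ξ h).hgt
      exact ⟨δ, fun _ => hδ⟩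
    · exact ⟨0, fun h' => absurd h' h⟩
  choose c hc using hex
  refine ⟨c, ⟨fun ξ hξ => (hc ξ hξ).1, ?_, ?_⟩, hc⟩
  · intro ξ η hξη hη
    have hξ : ξ < Ordinal.omega 1 := hξη.trans hη
    have h1 := (hN.gd η hη).tr _ (hChm θ N hN ξ η hξη hη).1
    have h2 : N ξ ∩ O1 = (c ξ).toZFSet := by
      ext z
      rw [ZFSet.mem_inter]
      exact (hc ξ hξ).2.2 z
    rw [h2] at h1
    have h3 : (c ξ).toZFSet ∈ O1 := Ordinal.toZFSet_mem_toZFSet_iff.2 (hc ξ hξ).1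
    exact Ordinal.toZFSet_mem_toZFSet_iff.1 (((hc η hη).2.2 _).1 ⟨h1, h3⟩)
  · intro ν hν hlim t ht
    obtain ⟨h1, h2⟩ := ((hc ν hν).2.2 _).2 (Ordinal.toZFSet_mem_toZFSet_iff.2 ht)
    obtain ⟨ξ, hξ, h3⟩ := (hN.cont ν hν hlim _).1 h1
    exact ⟨ξ, hξ, Ordinal.toZFSet_mem_toZFSet_iff.1
      (((hc ξ (hξ.trans hν)).2.2 _).1 ⟨h3, h2⟩)⟩

end MP33c03aR
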