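import Pool.Agent.Work.MP_33c03a_lc.StmtsB

open Set

namespace MP33c03aR

theorem pr_Hx (hHtr : StHtr) : StHx := by
  intro θ hθ hCS
  obtain ⟨t, ht1, ht2, ht3⟩ := hCS
  have hsub : O1 ⊆ t := by
    intro a ha
    have h1 : ({a} : ZFSet.{0}) ∈ CS O1 := by
      rw [CS, ZFSet.mem_sep, ZFSet.mem_powerset]
      constructor
      · intro z hz
        rw [ZFSet.mem_singleton] at hz
        rw [hz]; exact ha
      · have : {z | z ∈ ({a} : ZFSet.{0})} = {a} := by
          ext z; simp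
        rw [Ctb, this]; exact countable_singleton a
    exact ht1 _ (ht2 h1) (by rw [ZFSet.mem_singleton])
  have hO : O1 ∈ HH θ := ⟨t, ht1, hsub, ht3⟩
  have hcard : O1.card = Cardinal.aleph 1 := by
    rw [O1, Ordinal.card_toZFSet, Ordinal.card_omega]
  refine ⟨?_, hO, (hHtr θ O1 hO).2 ∅ (fun z hz => absurd hz (ZFSet.notMem_empty z)), ?_⟩
  · rw [← hcard]
    exact (ZFSet.card_mono hsub).trans_lt ht3
  · intro hc
    have h1 : Cardinal.mk {z | z ∈ O1} = Cardinal.lift.{1, 0} O1.card := ZFSet.cardinalMk_coe_sort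
    have h2 : Cardinal.mk {z | z ∈ O1} ≤ Cardinal.aleph0 := Cardinal.le_aleph0_iff_set_countable.2 hc
    rw [h1, hcard, Cardinal.lift_le_aleph0] at h2
    exact absurd h2 (not_le.2 Cardinal.aleph0_lt_aleph_one)

end MP33c03aR
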