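import Pool.Agent.Work.MP_33c03a_lc.StmtsB

open Set

namespace MP33c03aR

theorem pr_Inf : StInf := by
  intro c hc D ν hν hLL hfin
  rintro ⟨ν₀, hν₀, htail⟩
  obtain ⟨η, h1, h2, h3⟩ := hLL.2 ν₀ hν₀
  have hk : ∀ n : ℕ, ν₀ + 1 + n < η := by
    intro n
    induction n with
    | zero =>
      simp only [Nat.cast_zero, add_zero]
      exact h3.succ_lt h1
    | succ n ih =>
      have : ν₀ + 1 + ((n + 1 : ℕ) : Ordinal) = (ν₀ + 1 + n) + 1 := by
        rw [Nat.cast_succ, add_assoc (ν₀ + 1)]
      rw [this]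
      exact h3.succ_lt ih
  have hlt : ∀ n : ℕ, ν₀ < ν₀ + 1 + n := by
    intro n
    exact (lt_add_one ν₀).trans_le le_self_add
  have hinj : Function.Injective (fun n : ℕ => c (ν₀ + 1 + n)) := by
    intro m n hmn
    simp only at hmn
    rcases lt_trichotomy m n with h | h | h
    · have : ν₀ + 1 + (m : Ordinal) < ν₀ + 1 + n := by
        have : (m : Ordinal.{0}) < n := by exact_mod_cast h
        exact (add_lt_add_iff_left (ν₀ + 1)).2 this
      have := hc.mono _ _ this ((hk n).trans (h2.trans hν))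
      exact absurd hmn this.ne
    · exact h
    · have : ν₀ + 1 + (n : Ordinal) < ν₀ + 1 + m := by
        have : (n : Ordinal.{0}) < m := by exact_mod_cast h
        exact (add_lt_add_iff_left (ν₀ + 1)).2 this
      have := hc.mono _ _ this ((hk m).trans (h2.trans hν))
      exact absurd hmn this.ne'
  have hinf := infinite_range_of_injective hinj
  apply hinf
  apply (hfin (c η) (hc.mono η ν h2 hν)).subset
  rintro _ ⟨n, rfl⟩
  exact ⟨htail _ (hlt n) ((hk n).trans h2), (hc.mono _ _ (hk n) (h2.trans hν)).le⟩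

end MP33c03aR
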