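import Pool.Agent.Work.MP_33c03a_lc.StmtsB

/-!
Item Lmo of block R (MP_33c03a_lc): from the ladder form to `LM W1`.
-/

open Set

namespace MP33c03aR

private theorem Lmo_lt (c : Ordinal.{0} → Ordinal.{0}) (hc : Cseq c) (ξ η : Ordinal.{0})
    (hξ : ξ < Ordinal.omega 1) (h : c ξ < c η) : ξ < η := by
  by_contra h1
  rw [not_lt] at h1
  rcases h1.eq_or_lt with h2 | h2
  · rw [h2] at h
    exact lt_irrefl _ h
  · exact lt_asymm h (hc.mono _ _ h2 hξ)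

theorem pr_Lmo (hCcl : StCcl) : StLmo := by
  intro hL D hD
  obtain ⟨c, hc, hc2⟩ := hL
    (fun δ => {t | ∃ (hδ : δ < Ordinal.omega 1) (ht : t < Ordinal.omega 1),
      (⟨t, ht⟩ : W1) ∈ D ⟨δ, hδ⟩}) (by
    intro δ hδ g hg
    have h1 := (hD ⟨δ, hδ⟩ ⟨g, hg.trans hδ⟩ hg).image Subtype.val
    refine h1.subset ?_
    rintro t ⟨⟨hδ', ht, h2⟩, h3⟩
    exact ⟨⟨t, ht⟩, ⟨h2, h3⟩, rfl⟩)
  obtain ⟨h1, h2⟩ := hCcl c hc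
  refine ⟨_, h1, fun d hd => ?_⟩
  obtain ⟨ν, hν, hLL, hdν⟩ := h2 d hd
  obtain ⟨ν₀, h3, h4⟩ := hc2 ν hν hLL
  refine ⟨⟨c ν₀, hc.lt _ (h3.trans hν)⟩, ?_, ?_⟩
  · show c ν₀ < d.1
    rw [hdν]
    exact hc.mono _ _ h3 hν
  · rintro x ⟨μ, hμ, -, hxμ⟩ h5 h6 h7
    have h5' : c ν₀ < x.1 := h5
    have h6' : x.1 < d.1 := h6
    rw [hxμ] at h5' h6'
    rw [hdν] at h6'
    apply h4 μ (Lmo_lt c hc _ _ (h3.trans hν) h5') (Lmo_lt c hc _ _ hμ h6')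
    refine ⟨hc.lt _ hν, hc.lt _ hμ, ?_⟩
    have h8 : (⟨c μ, hc.lt _ hμ⟩ : W1) = x := Subtype.ext hxμ.symm
    have h9 : (⟨c ν, hc.lt _ hν⟩ : W1) = d := Subtype.ext hdν.symm
    rw [h8, h9]
    exact h7

end MP33c03aR
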