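import Pool.Agent.Work.MP_33c03a_lc.StmtsB

open Set

namespace MP33c03aR

theorem pr_Lub : StLub := by
  refine ⟨?_, ?_⟩
  · intro Y s t hs ht
    rcases lt_trichotomy s t with h | h | h
    · obtain ⟨a, ha, hsa⟩ := ht.2 s h
      exact absurd (hs.1 a ha) (not_le.2 hsa)
    · exact h
    · obtain ⟨a, ha, hsa⟩ := hs.2 t h
      exact absurd (ht.1 a ha) (not_le.2 hsa)
  · intro M δ hδ hM
    refine ⟨?_, ?_, ?_⟩
    · rw [CS, ZFSet.mem_sep, ZFSet.mem_powerset]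
      refine ⟨fun z hz => (ZFSet.mem_inter.1 hz).2, ?_⟩
      exact Set.Countable.mono (fun z hz => (ZFSet.mem_inter.1 hz).1) hM
    · intro a ha
      have h1 := (hδ.2.2 _).1 (ZFSet.mem_inter.1 ha)
      exact (Ordinal.toZFSet_mem_toZFSet_iff.1 h1).le
    · intro t ht
      have h1 : t + 1 < δ := hδ.2.1.succ_lt ht
      refine ⟨t + 1, ?_, lt_add_one t⟩
      rw [ZFSet.mem_inter]
      exact (hδ.2.2 _).2 (Ordinal.toZFSet_mem_toZFSet_iff.2 h1)

end MP33c03aR
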