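import Pool.Agent.Work.MP_33c03a_lc.StmtsA

open Set

namespace MP33c03aR

universe u

theorem pr_Mea (hNul : StNul.{u}) (hSig : StSig.{u}) (hCnt : StCnt.{u}) : StMea.{u} := by
  classical
  intro W _ _ B _ h B0 e X
  obtain ⟨n1, n2, n3, n4, n5, n6⟩ := hNul W B h X.nh
  have sig := hSig W B h X.om X.nh
  obtain ⟨c1, c2, -⟩ := hCnt W B h X.om X.nh
  have b0 : (⊥ : B) ∈ B0 := by
    have := X.sub_sup ∅ (empty_subset _)
    rwa [sSup_empty] at this
  have b1 : (⊤ : B) ∈ B0 := by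
    have := X.sub_compl _ b0
    rwa [compl_bot] at this
  have m3 : ∀ A, h A ∈ B0 → h Aᶜ ∈ B0 := by
    intro A hA
    rw [X.nh.compl]; exact X.sub_compl _ hA
  have m5 : ∀ A A', h A ∈ B0 → h A' ∈ B0 → h (A ∪ A') ∈ B0 := by
    intro A A' hA hA'
    rw [n3, ← sSup_pair]
    apply X.sub_sup
    rintro y (rfl | rfl)
    · exact hA
    · exact hA'
  have m4 : ∀ A A', h A ∈ B0 → h A' ∈ B0 → h (A ∩ A') ∈ B0 := by
    intro A A' hA hA'
    have : A ∩ A' = (Aᶜ ∪ A'ᶜ)ᶜ := by rw [compl_union, compl_compl, compl_compl]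
    rw [this]
    exact m3 _ (m5 _ _ (m3 _ hA) (m3 _ hA'))
  have sup : ∀ {ι : Type} (f : ι → B), (∀ i, f i ∈ B0) → (⨆ i, f i) ∈ B0 := by
    intro ι f hf
    apply X.sub_sup
    rintro _ ⟨i, rfl⟩
    exact hf i
  have sup' : ∀ (f : W → B), (∀ i, f i ∈ B0) → (⨆ i, f i) ∈ B0 := by
    intro f hf
    apply X.sub_sup
    rintro _ ⟨i, rfl⟩
    exact hf i
  have m6 : ∀ A : ℕ → Set W, (∀ n, h (A n) ∈ B0) → h (⋃ n, A n) ∈ B0 := by
    intro A hA
    rw [sig]
    exact sup _ hA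
  have m7 : ∀ A : W → Set W, (∀ x, h (A x) ∈ B0) → h {d | ∃ x < d, d ∈ A x} ∈ B0 := by
    intro A hA
    rw [X.nh.diag]
    exact sup' _ hA
  have m9 : ∀ A A', h (A \ A') = ⊥ → h (A' \ A) = ⊥ → h A ∈ B0 → h A' ∈ B0 := by
    intro A A' h1 h2 hA
    have : h A = h A' := le_antisymm ((n4 _ _).1 h1) ((n4 _ _).1 h2)
    rwa [← this]
  have m8 : ∀ (A : W → Set W) (g : W), (∀ x, h (A x) ∈ B0) →
      h {d | ∃ x < g, d ∈ A x} ∈ B0 := by
    intro A g hA
    have hcg : (Iic g).Countable := by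
      rw [← Iio_union_right]
      exact (X.om.1 g).union (countable_singleton g)
    have hg : h (Iic g) = ⊥ := c1 _ hcg
    have h0 : ∀ T : Set W, T ⊆ Iic g → h T = ⊥ := fun T hT => by
      have := n2 _ _ hT
      rwa [hg, le_bot_iff] at this
    refine m9 {d | ∃ x < d, d ∈ (if x < g then A x else ∅)} _ ?_ ?_ (m7 _ ?_)
    · have : {d | ∃ x < d, d ∈ (if x < g then A x else ∅)} \ {d | ∃ x < g, d ∈ A x} = ∅ := by
        ext d
        simp only [mem_sdiff, mem_ofPred_eq, mem_empty_iff_false, iff_false, not_and, not_not]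
        rintro ⟨x, hx, hd⟩
        by_cases hxg : x < g
        · rw [if_pos hxg] at hd
          exact ⟨x, hxg, hd⟩
        · rw [if_neg hxg] at hd
          exact absurd hd (notMem_empty _)
      rw [this, n1]
    · apply h0
      rintro d ⟨⟨x, hx, hd⟩, hd2⟩
      by_contra hgd
      apply hd2
      have hgd' : g < d := not_le.1 hgd
      exact ⟨x, hx.trans hgd', by rw [if_pos hx]; exact hd⟩
    · intro x
      by_cases hxg : x < g
      · rw [if_pos hxg]; exact hA x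
      · rw [if_neg hxg, n1]; exact b0
  refine ⟨fun A hA => by rw [hA]; exact b0, fun A hA => by rw [hA]; exact b1, m3, m4, m5,
    fun A hA => ⟨m6 A hA, ?_⟩, fun A hA => ⟨m7 A hA, ?_⟩, fun A g hA => ⟨m8 A g hA, ?_⟩, m9, ?_⟩
  · have : (⋂ n, A n) = (⋃ n, (A n)ᶜ)ᶜ := by rw [compl_iUnion]; simp only [compl_compl]
    rw [this]
    exact m3 _ (m6 _ fun n => m3 _ (hA n))
  · have : {d | ∀ x < d, d ∈ A x} = {d | ∃ x < d, d ∈ (A x)ᶜ}ᶜ := by
      ext d
      simp only [mem_ofPred_eq, mem_compl_iff, not_exists, not_and, not_not]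
    rw [this]
    exact m3 _ (m7 _ fun n => m3 _ (hA n))
  · have : {d | ∀ x < g, d ∈ A x} = {d | ∃ x < g, d ∈ (A x)ᶜ}ᶜ := by
      ext d
      simp only [mem_ofPred_eq, mem_compl_iff, not_exists, not_and, not_not]
    rw [this]
    exact m3 _ (m8 _ g fun n => m3 _ (hA n))
  · intro f hf hfa A
    have hnn : h {d | f d < d}ᶜ = ⊥ := (n5 _).1 hf
    refine m9 {d | ∃ x < d, d ∈ (if x ∈ A then {d | f d = x} else ∅)} _ ?_ ?_ (m7 _ ?_)
    · have : {d | ∃ x < d, d ∈ (if x ∈ A then {d | f d = x} else ∅)} \ {d | f d ∈ A} = ∅ := by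
        ext d
        simp only [mem_sdiff, mem_ofPred_eq, mem_empty_iff_false, iff_false, not_and, not_not]
        rintro ⟨x, hx, hd⟩
        by_cases hxg : x ∈ A
        · rw [if_pos hxg] at hd
          have : f d = x := hd
          rw [this]; exact hxg
        · rw [if_neg hxg] at hd
          exact absurd hd (notMem_empty _)
      rw [this, n1]
    · have hsub : {d | f d ∈ A} \ {d | ∃ x < d, d ∈ (if x ∈ A then {d | f d = x} else ∅)} ⊆
          {d | f d < d}ᶜ := by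
        rintro d ⟨hd1, hd2⟩ hd3
        apply hd2
        have hd1' : f d ∈ A := hd1
        exact ⟨f d, hd3, by rw [if_pos hd1']; rfl⟩
      have := n2 _ _ hsub
      rwa [hnn, le_bot_iff] at this
    · intro x
      by_cases hxg : x ∈ A
      · rw [if_pos hxg]; exact hfa x
      · rw [if_neg hxg, n1]; exact b0

end MP33c03aR
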