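import Pool.Agent.Work.MP_33c03a_lc.StmtsA

/-!
Item Met of block R (MP_33c03a_lc): the running maximum meets every unbounded set.
-/

open Set

namespace MP33c03aR

universe u

theorem pr_Met (hNul : StNul.{u}) (hDia : StDia.{u}) (hMea : StMea.{u}) (hDns : StDns.{u})
    (hDet : StDet.{u}) : StMet.{u} := by
  intro W _ _ B _ h B0 e hC S hS code st x hq C hunb
  obtain ⟨-, hmono, -, -, htop, -⟩ := hNul W B h hC.nh
  obtain ⟨-, -, hcompl, -, -, hunion, -⟩ := hMea W B h B0 e hC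
  obtain ⟨-, hmu, -, -, hE⟩ := hDet W B h B0 e hC S hS code st x hq
  have key : ∀ g : W, h {d | ∃ n, ymax x n d ∈ C ∧ g < ymax x n d} = ⊤ := by
    intro g
    rw [htop]
    by_contra hne
    have hAeq : {d | ∃ n, ymax x n d ∈ C ∧ g < ymax x n d} =
        ⋃ n, {d | ymax x n d ∈ C ∩ Ioi g} := by
      ext d
      simp only [mem_iUnion]
      rfl
    have hA : h {d | ∃ n, ymax x n d ∈ C ∧ g < ymax x n d} ∈ B0 := by
      rw [hAeq]
      exact (hunion _ fun n => hE n (C ∩ Ioi g)).1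
    obtain ⟨n, a, hFne, hF⟩ := hDns W B h B0 e hC S hS code st x hq _ (hcompl _ hA) hne
    obtain ⟨μ, hμ⟩ := hmu n a
    obtain ⟨ξ, hξC, hξ⟩ := hunb (max μ g)
    have hP := hq.pos n a hFne ξ
    apply hP
    have hsub : {d | st n d = a ∧ x n d = ξ} ⊆
        {d | st n d = a} \ {d | ∃ n, ymax x n d ∈ C ∧ g < ymax x n d}ᶜ := by
      rintro d ⟨hd1, hd2⟩
      refine ⟨hd1, fun hd3 => hd3 ⟨n, ?_⟩⟩
      have h2 : ymax x n d = ξ := by
        rw [hμ d hd1, hd2]
        exact max_eq_right ((le_max_left μ g).trans hξ.le)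
      rw [h2]
      exact ⟨hξC, lt_of_le_of_lt (le_max_right μ g) hξ⟩
    exact le_bot_iff.mp ((hmono _ _ hsub).trans hF.le)
  have h1 := hDia W B h hC.nh fun g => {d | ∃ n, ymax x n d ∈ C ∧ g < ymax x n d}
  have h2 : {d : W | ∀ g < d, d ∈ {d | ∃ n, ymax x n d ∈ C ∧ g < ymax x n d}} =
      {d | ∀ g < d, ∃ n, ymax x n d ∈ C ∧ g < ymax x n d} := rfl
  rw [← h2, h1]
  simp only [key, iInf_top]

end MP33c03aR
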