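import Pool.Agent.Work.MP_33c03a_lc.StmtsB

/-!
Block R, item Mro: from the Mapping Reflection Principle to the ladder form of Measuring.
-/

open Set

namespace MP33c03aR

private theorem Mro_uniq {M : ZFSet.{0}} {δ δ' : Ordinal.{0}} (h : Hgt M δ) (h' : Hgt M δ') :
    δ = δ' := by
  apply Ordinal.toZFSet_injective
  ext z
  rw [← h.2.2 z, ← h'.2.2 z]

theorem pr_Mro (hHx : StHx) (hHex : StHex) (hCbs : StCbs) (hGd : StGd) (hHts : StHts)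
    (hLub : StLub) (hOpn : StOpn) (hAll : StAll) (hNeg : StNeg) (hInf : StInf) : StMro := by
  classical
  intro hM D hD
  obtain ⟨θ, hθ, hX⟩ := hHex (CS O1)
  obtain ⟨-, -, -, hunc⟩ := hHx θ hθ hX
  obtain ⟨G, hG1, hG2⟩ := hGd θ hθ hX
  set dom : Set ZFSet.{0} := {M | Ctb M ∧ (∀ z ∈ M, z ∈ HH θ) ∧ Clo G M} with hdom
  have hgd : ∀ M ∈ dom, Gd θ M := fun M h => hG2 M h.1 h.2.1 h.2.2
  let dl : ZFSet.{0} → Ordinal.{0} := fun M => if h : ∃ δ, Hgt M δ then h.choose else 0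
  have hdl : ∀ M ∈ dom, Hgt M (dl M) := by
    intro M h
    have h' : ∃ δ, Hgt M δ := (hgd M h).hgt
    simp only [dl, dif_pos h']
    exact h'.choose_spec
  let Sm : ZFSet.{0} → Set ZFSet.{0} := fun M =>
    if MStat O1 M (Sg (D (dl M)) (dl M)) then Sg (D (dl M)) (dl M) else {Y | Y ∈ CS O1}
  obtain ⟨N, hN1, hN2, hN3, hN4⟩ := hM O1 θ hunc hθ hX dom Sm (hCbs θ G hG1)
    (fun M h => ⟨(hgd M h).el, (hgd M h).om⟩) (fun M h => by
      have h1 := hdl M h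
      by_cases hc : MStat O1 M (Sg (D (dl M)) (dl M))
      · simp only [Sm, if_pos hc]
        exact ⟨hOpn _ _ h1.1 (fun g hg => hD _ h1.1 g hg), hc⟩
      · simp only [Sm, if_neg hc]
        exact hAll θ M (hgd M h))
  have hch : Chn θ N := ⟨fun ξ h => hgd _ (hN1 ξ h), hN2, hN3⟩
  obtain ⟨c, hc, hcN⟩ := hHts θ N hch
  refine ⟨c, hc, fun ν hν hLL => ?_⟩
  have hdlc : ∀ ξ < Ordinal.omega 1, dl (N ξ) = c ξ := fun ξ h =>
    Mro_uniq (hdl _ (hN1 ξ h)) (hcN ξ h)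
  obtain ⟨ν₀, hν₀, htail⟩ := hN4 ν hν hLL.1
  by_cases hcs : MStat O1 (N ν) (Sg (D (dl (N ν))) (dl (N ν)))
  · refine ⟨ν₀, hν₀, fun ξ h1 h2 hmem => ?_⟩
    have h3 := htail ξ h1 h2
    simp only [Sm, if_pos hcs] at h3
    rw [hdlc ν hν] at h3
    obtain ⟨-, s, hs1, -, hs3⟩ := h3
    have hξ : ξ < Ordinal.omega 1 := h2.trans hν
    have h4 := (hLub.2 (N ξ) (c ξ) (hcN ξ hξ) (hgd _ (hN1 ξ hξ)).ct).2
    have h5 := hLub.1 _ _ _ h4 hs1
    rw [← h5] at hs3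
    exact hs3 hmem
  · exfalso
    rw [hdlc ν hν] at hcs
    exact hInf c hc (D (c ν)) ν hν hLL (fun g hg => hD _ (hc.lt ν hν) g hg)
      (hNeg θ N c hch hc hcN (D (c ν)) ν hν hLL.1 hcs)

end MP33c03aR
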