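import Pool.Agent.Work.MP_33c03a_lc.StmtsA

open Set

namespace MP33c03aR

universe u

theorem pr_Nul : StNul.{u} := by
  intro W _ B _ h H
  have e1 : h ∅ = ⊥ := by
    have := H.compl univ
    rw [compl_univ, H.top, compl_top] at this
    exact this
  have e2 : ∀ A A', A ⊆ A' → h A ≤ h A' := by
    intro A A' hs
    have := H.inter A A'
    rw [inter_eq_left.2 hs] at this
    rw [this]; exact inf_le_right
  have e3 : ∀ A A', h (A ∪ A') = h A ⊔ h A' := by
    intro A A'
    have : (A ∪ A') = (Aᶜ ∩ A'ᶜ)ᶜ := by rw [compl_inter, compl_compl, compl_compl]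
    rw [this, H.compl, H.inter, H.compl, H.compl, compl_inf, compl_compl, compl_compl]
  have e4 : ∀ A A', h (A \ A') = ⊥ ↔ h A ≤ h A' := by
    intro A A'
    have h0 : A \ A' = A ∩ A'ᶜ := rfl
    rw [h0, H.inter, H.compl]
    exact (disjoint_iff.symm.trans disjoint_compl_right_iff)
  refine ⟨e1, e2, e3, e4, ?_, ?_⟩
  · intro A
    rw [H.compl, compl_eq_bot]
  · intro A A' hA'
    rw [H.inter, hA', inf_top_eq]

end MP33c03aR
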