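import Pool.Agent.Work.MP_33c03a_lc.StmtsB

/-!
Block R (MP_33c03a_lc), item Opn: the sets `Sg` are open.
-/

set_option autoImplicit false

open Set

namespace MP33c03aR

theorem Opn_mem_CS (X Y : ZFSet.{0}) : Y ∈ CS X ↔ Y ⊆ X ∧ Ctb Y := by
  unfold CS
  rw [ZFSet.mem_sep, ZFSet.mem_powerset]

/-- every set of ordinals bounded by `s` has a least upper bound `≤ s` -/
theorem Opn_lub (Z : ZFSet.{0}) (s : Ordinal.{0}) (h : ∀ a : Ordinal.{0}, a.toZFSet ∈ Z → a ≤ s) :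
    ∃ s2 ≤ s, Lub Z s2 := by
  have hne : {s' : Ordinal.{0} | ∀ a : Ordinal.{0}, a.toZFSet ∈ Z → a ≤ s'}.Nonempty := ⟨s, h⟩
  refine ⟨sInf {s' : Ordinal.{0} | ∀ a : Ordinal.{0}, a.toZFSet ∈ Z → a ≤ s'},
    csInf_le' h, csInf_mem hne, fun t ht => ?_⟩
  by_contra hc
  push Not at hc
  have hc' : t ∈ {s' : Ordinal.{0} | ∀ a : Ordinal.{0}, a.toZFSet ∈ Z → a ≤ s'} := hc
  exact absurd (csInf_le' hc') (not_le.2 ht)

/-- Item [Opn] -/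
theorem pr_Opn : StOpn := by
  classical
  intro D δ _hδ hfin
  refine ⟨fun Y hY => hY.1, ?_⟩
  rintro Y ⟨hYC, s, hs, hsδ, hsD⟩
  have hF := hfin s hsδ
  obtain ⟨hYO, hYc⟩ := (Opn_mem_CS O1 Y).1 hYC
  have hex : ∀ t : Ordinal.{0}, t ∈ D ∩ Iic s → ∃ a : Ordinal.{0}, a.toZFSet ∈ Y ∧ t < a := by
    rintro t ⟨htD, hts⟩
    have hne : t ≠ s := fun h => hsD (h ▸ htD)
    exact hs.2 t (lt_of_le_of_ne hts hne)
  choose! a haY hat using hex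
  refine ⟨ZFSet.sep (fun z => ∃ t ∈ D ∩ Iic s, z = (a t).toZFSet) Y, Y, ?_, hYC, ?_, subset_rfl,
    ?_⟩
  · refine (hF.image fun t => (a t).toZFSet).subset ?_
    intro z hz
    obtain ⟨-, t, ht, rfl⟩ := ZFSet.mem_sep.1 hz
    exact ⟨t, ht, rfl⟩
  · intro z hz
    exact (ZFSet.mem_sep.1 hz).1
  · intro Z hxZ hZY
    have hZC : Z ∈ CS O1 := (Opn_mem_CS O1 Z).2
      ⟨fun z hz => hYO (hZY hz), hYc.mono fun z hz => hZY hz⟩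
    obtain ⟨s2, hs2, hlub⟩ := Opn_lub Z s fun b hb => hs.1 b (hZY hb)
    refine ⟨hZC, s2, hlub, lt_of_le_of_lt hs2 hsδ, fun hD => ?_⟩
    have hmem : s2 ∈ D ∩ Iic s := ⟨hD, hs2⟩
    have h1 : (a s2).toZFSet ∈ Z := hxZ (ZFSet.mem_sep.2 ⟨haY s2 hmem, s2, hmem, rfl⟩)
    exact absurd (hlub.1 _ h1) (not_le.2 (hat s2 hmem))

end MP33c03aR
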