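import Pool.Agent.Work.MP_33c03a_lc.StmtsB

open Set

namespace MP33c03aR

theorem pr_Ran : StRan := by
  intro S hS
  haveI : Countable S := hS.to_subtype
  haveI : Small.{0} S := inferInstance
  refine ⟨ZFSet.range (fun x : Shrink.{0} S => ((equivShrink S).symm x).1), ?_⟩
  have hmem : ∀ z, z ∈ ZFSet.range (fun x : Shrink.{0} S => ((equivShrink S).symm x).1) ↔
      z ∈ S := by
    intro z
    rw [ZFSet.mem_range]
    constructor
    · rintro ⟨x, rfl⟩
      exact ((equivShrink S).symm x).2
    · intro hz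
      exact ⟨equivShrink S ⟨z, hz⟩, by simp⟩
  refine ⟨hmem, ?_⟩
  rw [Ctb]
  have : {z | z ∈ ZFSet.range (fun x : Shrink.{0} S => ((equivShrink S).symm x).1)} = S := by
    ext z; exact hmem z
  rw [this]; exact hS

end MP33c03aR
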