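import Pool.Agent.Work.MP_33c03a_lc.StmtsA

open Set

namespace MP33c03aR

universe u

theorem pr_Reg (hNul : StNul.{u}) : StReg.{u} := by
  intro W _ _ B _ h O H
  obtain ⟨n1, n2, n3, n4, n5, n6⟩ := hNul W B h H
  have key : ∀ f : W → W, h {d | f d < d} = ⊤ → ∀ A, h A = ⨆ x, h (A ∩ {d | f d = x}) := by
    intro f hf A
    have h1 := H.diag (fun x => A ∩ {d | f d = x})
    rw [← h1]
    have h2 : {d | ∃ x < d, d ∈ A ∩ {d | f d = x}} = A ∩ {d | f d < d} := by
      ext d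
      simp only [mem_setOf_eq, mem_inter_iff]
      constructor
      · rintro ⟨x, hx, hA, rfl⟩
        exact ⟨hA, hx⟩
      · rintro ⟨hA, hx⟩
        exact ⟨f d, hx, hA, rfl⟩
    rw [h2, n6 _ _ hf]
  refine ⟨key, ?_⟩
  intro f hf A hA
  by_contra hc
  push Not at hc
  apply hA
  rw [key f hf A]
  simp only [hc, iSup_bot]

end MP33c03aR
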