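import Pool.Agent.Work.MP_33c03a_lc.StmtsA

/-!
Item Seq of block R (MP_33c03a_lc): the construction of length `ω`.
-/

open Set

namespace MP33c03aR

universe u

theorem pr_Seq (hNul : StNul.{u}) (hCnt : StCnt.{u}) (hCls : StCls.{u}) (hMea : StMea.{u})
    (hCod : StCod) (hStp3 : StStp3.{u}) : StSeq.{u} := by
  intro W _ _ B _ h B0 e hC S hS
  obtain ⟨hemp, hmono, -, -, -, -⟩ := hNul W B h hC.nh
  obtain ⟨-, hlt, -⟩ := hCnt W B h hC.om hC.nh
  obtain ⟨hbot, htop, -⟩ := hMea W B h B0 e hC
  obtain ⟨⟨code, hcode⟩, -⟩ := hCod W hC.om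
  have hne : Nonempty W := by
    by_contra hn
    rw [not_nonempty_iff] at hn
    apply hC.om.2
    exact Set.countable_univ_iff.2 inferInstance
  obtain ⟨w⟩ := hne
  have h0 : RG h B0 (fun _ : W => w) := by
    refine ⟨hlt w, fun a => ?_⟩
    by_cases hwa : w = a
    · apply htop
      have : {d : W | (fun _ : W => w) d = a} = univ := by
        ext d
        simp [hwa]
      rw [this, hC.nh.top]
    · apply hbot
      have : {d : W | (fun _ : W => w) d = a} = ∅ := by
        ext d
        simp [hwa]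
      rw [this, hemp]
  have hstep : ∀ (n : ℕ) (s : {st : W → W // RG h B0 st}), ∃ x : W → W, h {d | x d < d} = ⊤ ∧
      (∀ a ξ, h {d | s.1 d = a ∧ x d = ξ} ∈ B0) ∧
      ∀ a, h {d | s.1 d = a} ≠ ⊥ → ∀ ξ, h {d | s.1 d = a ∧ x d = ξ} ≠ ⊥ ∧
        Dec h e S n {d | s.1 d = a ∧ x d = ξ} := fun n s =>
    hStp3 W B h B0 e hC S hS s.1 n s.2
  choose X hX using hstep
  have hnext : ∀ (n : ℕ) (s : {st : W → W // RG h B0 st}),
      RG h B0 (fun d => code (s.1 d) (X n s d)) := by
    intro n s
    obtain ⟨h1, h2, -⟩ := hX n s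
    refine ⟨?_, fun a' => ?_⟩
    · have h3 := hCls W B h hC.om hC.nh (fun a b _ _ => code a b)
      have h4 : h ({d | s.1 d < d} ∩ {d | X n s d < d} ∩
          {d | ∀ a < d, ∀ b < d, ∀ c < d, ∀ c' < d, (fun a b _ _ => code a b) a b c c' < d})
          = ⊤ := by
        rw [hC.nh.inter, hC.nh.inter, s.2.1, h1, h3, top_inf_eq, top_inf_eq]
      refine top_le_iff.mp (h4.ge.trans (hmono _ _ ?_))
      rintro d ⟨⟨h5, h6⟩, h7⟩
      exact h7 _ h5 _ h6 _ h5 _ h5
    · by_cases hex : ∃ a ξ, code a ξ = a'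
      · obtain ⟨a, ξ, rfl⟩ := hex
        have h3 : {d | (fun d => code (s.1 d) (X n s d)) d = code a ξ} =
            {d | s.1 d = a ∧ X n s d = ξ} := by
          ext d
          constructor
          · intro h4
            exact hcode _ _ _ _ h4
          · rintro ⟨h4, h5⟩
            show code (s.1 d) (X n s d) = code a ξ
            rw [h4, h5]
        rw [h3]
        exact h2 a ξ
      · apply hbot
        have h3 : {d | (fun d => code (s.1 d) (X n s d)) d = a'} = ∅ := by
          ext d
          constructor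
          · intro h4
            exact hex ⟨_, _, h4⟩
          · intro h4
            exact h4.elim
        rw [h3, hemp]
  let s : ℕ → {st : W → W // RG h B0 st} := fun n => Nat.rec ⟨fun _ => w, h0⟩
    (fun n s => ⟨fun d => code (s.1 d) (X n s d), hnext n s⟩) n
  refine ⟨code, fun n => (s n).1, fun n => X n (s n), ?_⟩
  exact
    { inj := hcode
      stS := fun n d => rfl
      rst := fun n => (s n).2
      rx := fun n => (hX n (s n)).1
      pos := fun n a ha ξ => ((hX n (s n)).2.2 a ha ξ).1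
      dec := fun n a ha ξ => ((hX n (s n)).2.2 a ha ξ).2 }

end MP33c03aR
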