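import Pool.Agent.Work.MP_33c03a_lc.StmtsA

open Set

namespace MP33c03aR

universe u

theorem pr_Sig (hNul : StNul.{u}) (hFst : StFst) : StSig.{u} := by
  classical
  intro W _ _ B _ h O H A
  obtain ⟨n1, n2, n3, n4, n5, n6⟩ := hNul W B h H
  obtain ⟨w, hw1, hw2, hw3⟩ := hFst W O
  -- the range of w is null
  have hr0 : h (range (fun n => w (n + 1))) = ⊥ := by
    have h1 := H.diag (fun x => {d | ∃ n, x = w n ∧ d = w (n + 1)})
    have h2 : {d | ∃ x < d, d ∈ {d | ∃ n, x = w n ∧ d = w (n + 1)}} =
        range (fun n => w (n + 1)) := by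
      ext d
      simp only [mem_ofPred_eq, mem_range]
      constructor
      · rintro ⟨x, hx, n, rfl, rfl⟩
        exact ⟨n, rfl⟩
      · rintro ⟨n, rfl⟩
        exact ⟨w n, hw1 (Nat.lt_succ_self n), n, rfl, rfl⟩
    rw [← h2, h1]
    simp only [iSup_eq_bot]
    intro x
    by_cases hx : ∃ n, x = w n
    · obtain ⟨n, rfl⟩ := hx
      have : {d | ∃ n', w n = w n' ∧ d = w (n' + 1)} ⊆ {w (n + 1)} := by
        rintro d ⟨n', hn', rfl⟩
        rw [hw1.injective hn']; rfl
      have := n2 _ _ this
      rwa [H.single, le_bot_iff] at this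
    · have : {d | ∃ n, x = w n ∧ d = w (n + 1)} = ∅ := by
        ext d
        simp only [mem_ofPred_eq, mem_empty_iff_false, iff_false]
        rintro ⟨n, hn, -⟩
        exact hx ⟨n, hn⟩
      rw [this, n1]
  have hr : h (range w) = ⊥ := by
    have : range w ⊆ {w 0} ∪ range (fun n => w (n + 1)) := by
      rintro _ ⟨n, rfl⟩
      cases n with
      | zero => exact Or.inl rfl
      | succ n => exact Or.inr ⟨n, rfl⟩
    have := n2 _ _ this
    rwa [n3, H.single, hr0, sup_idem, le_bot_iff] at this
  apply le_antisymm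
  · have h1 := H.diag (fun x => ⋃ n ∈ {n | x = w n}, A n)
    have h2 : (⋃ n, A n) ⊆ {d | ∃ x < d, d ∈ ⋃ n ∈ {n | x = w n}, A n} ∪ range w := by
      intro d hd
      obtain ⟨n, hn⟩ := mem_iUnion.1 hd
      by_cases hdr : d ∈ range w
      · exact Or.inr hdr
      · left
        have hlt : w n < d := by
          rcases lt_trichotomy (w n) d with h | h | h
          · exact h
          · exact absurd ⟨n, h⟩ hdr
          · obtain ⟨m, hm⟩ := hw3 n d h
            exact absurd ⟨m, hm.symm⟩ hdr
        exact ⟨w n, hlt, by simp only [mem_iUnion]; exact ⟨n, rfl, hn⟩⟩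
    have h3 := n2 _ _ h2
    rw [n3, hr, sup_bot_eq, h1] at h3
    refine h3.trans (iSup_le fun x => ?_)
    by_cases hx : ∃ n, x = w n
    · obtain ⟨n, rfl⟩ := hx
      have : (⋃ n' ∈ {n' | w n = w n'}, A n') ⊆ A n := by
        intro d hd
        simp only [mem_iUnion] at hd
        obtain ⟨n', hn', hd⟩ := hd
        rw [hw1.injective hn']; exact hd
      exact (n2 _ _ this).trans (le_iSup (fun n => h (A n)) n)
    · have : (⋃ n ∈ {n | x = w n}, A n) = ∅ := by
        ext d
        simp only [mem_iUnion, mem_empty_iff_false, iff_false]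
        rintro ⟨n, hn, -⟩
        exact hx ⟨n, hn⟩
      rw [this, n1]; exact bot_le
  · exact iSup_le fun n => n2 _ _ (subset_iUnion A n)

end MP33c03aR
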