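import Pool.Agent.Work.MP_33c03a_lc.StmtsB

/-!
Block R (MP_33c03a_lc), item Sko: Skolem functions.
-/

open Set

namespace MP33c03aR

/-- The empty set belongs to `H(θ)`. -/
theorem Sko_empty {θ : Cardinal.{0}} (hθ : θ.IsRegular) : (∅ : ZFSet.{0}) ∈ HH θ := by
  refine ⟨∅, ZFSet.isTransitive_empty, fun z hz => hz, ?_⟩
  rw [ZFSet.card_empty]
  exact lt_of_lt_of_le Cardinal.aleph0_pos hθ.aleph0_le

/-- There is at most one relation symbol of each arity. -/
theorem Sko_subR (n : ℕ) : Subsingleton (LRel n) :=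
  ⟨fun a b => by cases a; cases b; rfl⟩

/-- There are countably many Skolem functions. -/
theorem Sko_ctb : Countable (Σ n, (LSet.sum LSet.skolem₁).Functions n) := by
  have h1 : Countable (Σ n, LSet.Functions n) := by
    have : IsEmpty (Σ n, LSet.Functions n) := ⟨fun p => nomatch p.2⟩
    infer_instance
  have h2 : Countable (Σ n, LSet.Relations n) := by
    have : ∀ n, Countable (LSet.Relations n) := fun n => by
      have h : Subsingleton (LSet.Relations n) := Sko_subR n
      infer_instance
    infer_instance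
  have h3 : LSet.card ≤ Cardinal.aleph0 := by
    have h : Countable LSet.Symbols := by
      unfold FirstOrder.Language.Symbols
      infer_instance
    exact Cardinal.mk_le_aleph0_iff.2 h
  have h4 := FirstOrder.Language.card_functions_sum_skolem₁_le (L := LSet)
  rw [max_eq_left h3] at h4
  exact Cardinal.mk_le_aleph0_iff.1 h4

/-- The function on lists of a symbol. -/
noncomputable def Sko_G {θ : Cardinal.{0}} [Nonempty (HH θ)]
    (p : Σ n, (LSet.sum LSet.skolem₁).Functions n) (l : List ZFSet.{0}) : ZFSet.{0} :=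
  open Classical in
  if h : ∃ x : Fin p.1 → HH θ, l = List.ofFn (fun k => (x k).1) then
    (FirstOrder.Language.Structure.funMap p.2 h.choose : HH θ).1 else ∅

theorem Sko_G_mem {θ : Cardinal.{0}} (hθ : θ.IsRegular) [Nonempty (HH θ)]
    (p : Σ n, (LSet.sum LSet.skolem₁).Functions n) (l : List ZFSet.{0}) :
    Sko_G (θ := θ) p l ∈ HH θ := by
  unfold Sko_G
  split_ifs with h
  · exact (FirstOrder.Language.Structure.funMap p.2 h.choose : HH θ).2
  · exact Sko_empty hθ

theorem Sko_G_eq {θ : Cardinal.{0}} [Nonempty (HH θ)] {n : ℕ}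
    (g : (LSet.sum LSet.skolem₁).Functions n) (x : Fin n → HH θ) :
    Sko_G (θ := θ) ⟨n, g⟩ (List.ofFn (fun k => (x k).1)) =
      (FirstOrder.Language.Structure.funMap g x : HH θ).1 := by
  unfold Sko_G
  have h : ∃ x' : Fin n → HH θ, List.ofFn (fun k => (x k).1) = List.ofFn (fun k => (x' k).1) :=
    ⟨x, rfl⟩
  have h1 : h.choose = x := by
    have h2 := List.ofFn_injective h.choose_spec
    funext k
    exact Subtype.ext (congrFun h2 k).symm
  rw [dif_pos h, h1]

/-- Item Sko: Skolem functions. -/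
theorem pr_Sko : StSko := by
  intro θ hθ
  have hne : Nonempty (HH θ) := ⟨⟨∅, Sko_empty hθ⟩⟩
  have hct := Sko_ctb
  have hn : Nonempty (Σ n, (LSet.sum LSet.skolem₁).Functions n) :=
    ⟨⟨0, Sum.inr (⊥ : LSet.BoundedFormula Empty 1)⟩⟩
  obtain ⟨f, hf⟩ := exists_surjective_nat (Σ n, (LSet.sum LSet.skolem₁).Functions n)
  refine ⟨fun i l => Sko_G (θ := θ) (f i) l, fun i l _ => Sko_G_mem hθ _ _, ?_⟩
  intro M _ hM hC
  let S : (LSet.sum LSet.skolem₁).Substructure (HH θ) :=
    { carrier := {y | y.1 ∈ M}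
      fun_mem := by
        intro n g x hx
        obtain ⟨i, hi⟩ := hf ⟨n, g⟩
        have h := hC i (List.ofFn (fun k => (x k).1)) (by
          intro z hz
          rw [List.mem_ofFn] at hz
          obtain ⟨k, rfl⟩ := hz
          exact hx k)
        simp only [hi] at h
        rw [Sko_G_eq] at h
        exact h }
  refine ⟨S.elementarySkolem₁Reduct, fun z => ?_⟩
  constructor
  · intro hz
    exact ⟨⟨z, hM z hz⟩, hz, rfl⟩
  · rintro ⟨y, hy, rfl⟩
    exact hy

end MP33c03aR
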