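import Pool.Agent.Work.MP_33c03a_lc.StmtsA

/-!
Item Stp1 of block R (MP_33c03a_lc): the step for one fibre.
-/

open Set

namespace MP33c03aR

universe u

private theorem Stp1_split {W : Type 1} [LinearOrder W] {B : Type u} [CompleteBooleanAlgebra B]
    {h : Set W → B} (hun : ∀ A A', h (A ∪ A') = h A ⊔ h A') (A Y : Set W) (hA : h A ≠ ⊥) :
    ∃ i : Bool, h (A ∩ {d | (d ∈ Y ↔ i = true)}) ≠ ⊥ := by
  by_contra hcon
  push Not at hcon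
  apply hA
  have h1 : A = (A ∩ {d | (d ∈ Y ↔ true = true)}) ∪ (A ∩ {d | (d ∈ Y ↔ false = true)}) := by
    ext d
    simp only [mem_union, mem_inter_iff, mem_ofPred_eq]
    by_cases hd : d ∈ Y
    · simp [hd]
    · simp [hd]
  rw [h1, hun, hcon true, hcon false, bot_sup_eq]

theorem pr_Stp1 (hNul : StNul.{u}) (hCnt : StCnt.{u}) (hReg : StReg.{u}) (hUlm : StUlm.{u}) :
    StStp1.{u} := by
  intro W _ _ B _ h B0 e hC S hS T n hT hT0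
  obtain ⟨hemp, hmono, hun, -, -, htopi⟩ := hNul W B h hC.nh
  obtain ⟨-, hlt, hinf⟩ := hCnt W B h hC.om hC.nh
  have hreg := (hReg W B h hC.om hC.nh).2
  have hef : ∀ k, h {d | e d k < d} = ⊤ := by
    intro k
    refine top_le_iff.mp (hinf.ge.trans (hmono _ _ ?_))
    intro d hd
    exact (hC.en d hd).mapsTo (mem_univ k)
  have hle : ∀ A A', A ⊆ A' → h A ≠ ⊥ → h A' ≠ ⊥ := fun A A' h1 h2 h3 =>
    h2 (le_bot_iff.mp ((hmono _ _ h1).trans h3.le))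
  -- the set `T2`
  obtain ⟨b, hb⟩ := hreg (fun d => e d n) (hef n) T hT0
  obtain ⟨i, hi⟩ := Stp1_split hun _ (S b) hb
  have hi2 : h (T ∩ {d | (Iio d).Infinite ∧ e d n = b} ∩ {d | (d ∈ S b ↔ i = true)}) ≠ ⊥ := by
    rw [← htopi _ _ hinf] at hi
    refine hle _ _ ?_ hi
    rintro d ⟨⟨⟨h1, h2⟩, h3⟩, h4⟩
    exact ⟨⟨h1, ⟨h4, h2⟩⟩, h3⟩
  obtain ⟨m, hm⟩ := hUlm W B h B0 e hC _ hi2
  refine ⟨m, {p | h (T ∩ {d | (Iio d).Infinite ∧ e d n = p.1} ∩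
    {d | (d ∈ S p.1 ↔ p.2.1 = true)} ∩ {d | (Iio d).Infinite ∧ e d m = p.2.2}) ≠ ⊥},
    ?_, fun _ _ _ => Iff.rfl, ?_⟩
  · intro hK
    apply hm
    have h1 : Function.Injective fun c : W => ((b, i, c) : W × Bool × W) := by
      intro c c' h2
      exact (Prod.mk.inj (Prod.mk.inj h2).2).2
    exact hK.preimage h1
  · by_contra hcon
    obtain ⟨b', hb'⟩ := hreg (fun d => e d n) (hef n) _ hcon
    obtain ⟨c', hc'⟩ := hreg (fun d => e d m) (hef m) _ hb'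
    obtain ⟨i', hi'⟩ := Stp1_split hun _ (S b') hc'
    rw [← htopi _ _ hinf] at hi'
    have h1 : ((b', i', c') : W × Bool × W) ∈ {p : W × Bool × W |
        h (T ∩ {d | (Iio d).Infinite ∧ e d n = p.1} ∩
        {d | (d ∈ S p.1 ↔ p.2.1 = true)} ∩ {d | (Iio d).Infinite ∧ e d m = p.2.2}) ≠ ⊥} := by
      refine hle _ _ ?_ hi'
      rintro d ⟨⟨⟨⟨⟨h1, -⟩, h2⟩, h3⟩, h4⟩, h5⟩
      exact ⟨⟨⟨h1, ⟨h5, h2⟩⟩, h4⟩, ⟨h5, h3⟩⟩
    apply hi'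
    have h2 : ∀ A : Set W, (∀ d, d ∉ A) → h A = ⊥ := by
      intro A hA
      have h3 : A = ∅ := by
        ext d
        exact ⟨fun h4 => (hA d h4).elim, fun h4 => h4.elim⟩
      rw [h3, hemp]
    apply h2
    rintro d ⟨⟨⟨⟨⟨h3, h4⟩, h5⟩, h6⟩, h7⟩, h8⟩
    exact h4 ⟨b', i', c', h1, h8, h5, h7, h6⟩

end MP33c03aR
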