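import Pool.Agent.Work.MP_33c03a_lc.StmtsA

/-!
Item Stp2 of block R (MP_33c03a_lc): the step for one fibre, with a function.
-/

open Set

namespace MP33c03aR

universe u

theorem pr_Stp2 (hNul : StNul.{u}) (hMea : StMea.{u}) (hBnx : StBnx.{u}) (hCod : StCod)
    (hStp1 : StStp1.{u}) : StStp2.{u} := by
  intro W _ _ B _ h B0 e hC S hS T n hT hT0
  obtain ⟨hemp, hmono, -, -, -, -⟩ := hNul W B h hC.nh
  obtain ⟨hbot, htop, hcompl, hinter, -, -, -, -, heqv, -⟩ := hMea W B h B0 e hC
  obtain ⟨-, hcod⟩ := hCod W hC.om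
  obtain ⟨m, K, hK, hKiff, hrest⟩ := hStp1 W B h B0 e hC S hS T n hT hT0
  obtain ⟨g0, hg0⟩ := hcod K hK
  have hne : Nonempty W := by
    by_contra hn
    rw [not_nonempty_iff] at hn
    apply hC.om.2
    exact Set.countable_univ_iff.2 inferInstance
  obtain ⟨w⟩ := hne
  classical
  refine ⟨fun d => if (e d n, decide (d ∈ S (e d n)), e d m) ∈ K then
      g0 (e d n, decide (d ∈ S (e d n)), e d m) else w, m,
    fun b i c => if (b, i, c) ∈ K then g0 (b, i, c) else w, ?_, ?_⟩
  · intro d
    exact ⟨decide (d ∈ S (e d n)), rfl⟩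
  · intro ξ
    obtain ⟨⟨b, i, c⟩, hp, hpξ⟩ := hg0.surjOn (mem_univ ξ)
    have hP0 := (hKiff b i c).mp hp
    have hPm : h (T ∩ {d | (Iio d).Infinite ∧ e d n = b} ∩ {d | (d ∈ S b ↔ i = true)} ∩
        {d | (Iio d).Infinite ∧ e d m = c}) ∈ B0 := by
      refine hinter _ _ (hinter _ _ (hinter _ _ hT (hBnx W B h B0 e hC b n)) ?_)
        (hBnx W B h B0 e hC c m)
      cases i with
      | true =>
        have : {d | (d ∈ S b ↔ true = true)} = S b := by
          ext d
          simp
        rw [this]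
        exact hS.1 b
      | false =>
        have : {d | (d ∈ S b ↔ false = true)} = (S b)ᶜ := by
          ext d
          simp
        rw [this]
        exact hcompl _ (hS.1 b)
    have hsub1 : T ∩ {d | (Iio d).Infinite ∧ e d n = b} ∩ {d | (d ∈ S b ↔ i = true)} ∩
        {d | (Iio d).Infinite ∧ e d m = c} ⊆ T ∩ {d | (if (e d n, decide (d ∈ S (e d n)), e d m) ∈ K
          then g0 (e d n, decide (d ∈ S (e d n)), e d m) else w) = ξ} := by
      rintro d ⟨⟨⟨h1, h2⟩, h3⟩, h4⟩
      refine ⟨h1, ?_⟩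
      have h5 : (e d n, decide (d ∈ S (e d n)), e d m) = (b, i, c) := by
        rw [h2.2, h4.2]
        have h6 : decide (d ∈ S b) = i := by
          have h7 : d ∈ S b ↔ i = true := h3
          cases i with
          | true => exact decide_eq_true (h7.mpr rfl)
          | false => exact decide_eq_false (fun h8 => Bool.false_ne_true (h7.mp h8))
        rw [h6]
      show (if (e d n, decide (d ∈ S (e d n)), e d m) ∈ K
          then g0 (e d n, decide (d ∈ S (e d n)), e d m) else w) = ξ
      rw [h5, if_pos hp, hpξ]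
    have hsub2 : (T ∩ {d | (if (e d n, decide (d ∈ S (e d n)), e d m) ∈ K
          then g0 (e d n, decide (d ∈ S (e d n)), e d m) else w) = ξ}) \
        (T ∩ {d | (Iio d).Infinite ∧ e d n = b} ∩ {d | (d ∈ S b ↔ i = true)} ∩
        {d | (Iio d).Infinite ∧ e d m = c}) ⊆
        T ∩ {d | ¬ ∃ b i c, (b, i, c) ∈ K ∧ (Iio d).Infinite ∧ e d n = b ∧
        (d ∈ S b ↔ i = true) ∧ e d m = c} := by
      rintro d ⟨⟨h1, h2⟩, h3⟩
      refine ⟨h1, ?_⟩
      rintro ⟨b', i', c', hK', hinf, hb, hi, hc⟩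
      apply h3
      have h2' : (if (e d n, decide (d ∈ S (e d n)), e d m) ∈ K
          then g0 (e d n, decide (d ∈ S (e d n)), e d m) else w) = ξ := h2
      have h5 : (e d n, decide (d ∈ S (e d n)), e d m) = (b', i', c') := by
        rw [hb, hc]
        have h6 : decide (d ∈ S b') = i' := by
          cases i' with
          | true => exact decide_eq_true (hi.mpr rfl)
          | false => exact decide_eq_false (fun h8 => Bool.false_ne_true (hi.mp h8))
        rw [h6]
      rw [h5, if_pos hK'] at h2'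
      have h6 := hg0.injOn hK' hp (h2'.trans hpξ.symm)
      obtain ⟨rfl, h7⟩ := Prod.mk.inj h6
      obtain ⟨rfl, rfl⟩ := Prod.mk.inj h7
      exact ⟨⟨⟨h1, ⟨hinf, hb⟩⟩, hi⟩, ⟨hinf, hc⟩⟩
    have hnull : ∀ A, A ⊆ (T ∩ {d | (if (e d n, decide (d ∈ S (e d n)), e d m) ∈ K
          then g0 (e d n, decide (d ∈ S (e d n)), e d m) else w) = ξ}) \
        (T ∩ {d | (Iio d).Infinite ∧ e d n = b} ∩ {d | (d ∈ S b ↔ i = true)} ∩
        {d | (Iio d).Infinite ∧ e d m = c}) → h A = ⊥ := fun A hA =>
      le_bot_iff.mp ((hmono _ _ (hA.trans hsub2)).trans hrest.le)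
    refine ⟨heqv _ _ ?_ (hnull _ subset_rfl) hPm, ?_, b, ?_, ?_⟩
    · rw [sdiff_eq_empty.mpr hsub1, hemp]
    · intro h1
      exact hP0 (le_bot_iff.mp ((hmono _ _ hsub1).trans h1.le))
    · apply hnull
      intro d hd
      exact ⟨hd.1, fun h1 => hd.2 h1.1.1.2⟩
    · cases i with
      | true =>
        left
        apply hnull
        intro d hd
        refine ⟨hd.1, fun h1 => hd.2 ?_⟩
        have h2 : d ∈ S b ↔ true = true := h1.1.2
        exact h2.mpr rfl
      | false =>
        right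
        apply hnull
        intro d hd
        refine ⟨hd.1, fun h1 => ?_⟩
        have h2 : d ∈ S b ↔ false = true := h1.1.2
        exact Bool.false_ne_true (h2.mp hd.2)

end MP33c03aR
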