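import Pool.Agent.Work.MP_33c03a_lc.StmtsA

/-!
Item Stp3 of block R (MP_33c03a_lc): the step lemma.
-/

open Set

namespace MP33c03aR

universe u

theorem pr_Stp3 (hNul : StNul.{u}) (hCnt : StCnt.{u}) (hReg : StReg.{u}) (hCls : StCls.{u})
    (hMea : StMea.{u}) (hStp2 : StStp2.{u}) : StStp3.{u} := by
  intro W _ _ B _ h B0 e hC S hS st n hst
  obtain ⟨hemp, hmono, -, hdiff, htopc, htopi⟩ := hNul W B h hC.nh
  obtain ⟨-, hlt, hinf⟩ := hCnt W B h hC.om hC.nh
  obtain ⟨hbot, htop, -⟩ := hMea W B h B0 e hC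
  have hne : Nonempty W := by
    by_contra hn
    rw [not_nonempty_iff] at hn
    apply hC.om.2
    exact Set.countable_univ_iff.2 inferInstance
  obtain ⟨w⟩ := hne
  have hstep : ∀ a : W, ∃ (x : W → W) (m : ℕ) (g : W → Bool → W → W),
      h {d | st d = a} ≠ ⊥ → (∀ d, ∃ i, x d = g (e d n) i (e d m)) ∧
      ∀ ξ, h ({d | st d = a} ∩ {d | x d = ξ}) ∈ B0 ∧ h ({d | st d = a} ∩ {d | x d = ξ}) ≠ ⊥ ∧
        Dec h e S n ({d | st d = a} ∩ {d | x d = ξ}) := by
    intro a
    by_cases ha : h {d | st d = a} = ⊥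
    · exact ⟨fun _ => w, 0, fun _ _ _ => w, fun hn => absurd ha hn⟩
    · obtain ⟨x, m, g, h1, h2⟩ := hStp2 W B h B0 e hC S hS {d | st d = a} n (hst.2 a) ha
      exact ⟨x, m, g, fun _ => ⟨h1, h2⟩⟩
  choose X m g hX using hstep
  have hset : ∀ a ξ, {d | st d = a ∧ X (st d) d = ξ} = {d | st d = a} ∩ {d | X a d = ξ} := by
    intro a ξ
    ext d
    constructor
    · rintro ⟨h1, h2⟩
      refine ⟨h1, ?_⟩
      show X a d = ξ
      rw [← h2]
      have h3 : st d = a := h1
      rw [h3]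
    · rintro ⟨h1, h2⟩
      have h3 : st d = a := h1
      refine ⟨h3, ?_⟩
      rw [h3]
      exact h2
  refine ⟨fun d => X (st d) d, ?_, ?_, ?_⟩
  · rw [htopc]
    by_contra hcon
    obtain ⟨a, ha⟩ := (hReg W B h hC.om hC.nh).2 st hst.1 _ hcon
    have ha' : h {d | st d = a} ≠ ⊥ := by
      intro h1
      apply ha
      exact le_bot_iff.mp ((hmono _ _ inter_subset_right).trans h1.le)
    obtain ⟨h1, -⟩ := hX a ha'
    apply ha
    have h3 := hCls W B h hC.om hC.nh (fun b c _ _ => max (g a b true c) (g a b false c))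
    have h4 : h ({d | ∀ b < d, ∀ c < d, ∀ c1 < d, ∀ c' < d,
        (fun b c _ _ => max (g a b true c) (g a b false c)) b c c1 c' < d} ∩
        {d : W | (Iio d).Infinite}) = ⊤ := by
      rw [hC.nh.inter, h3, hinf, top_inf_eq]
    rw [htopc] at h4
    refine le_bot_iff.mp ((hmono _ _ ?_).trans h4.le)
    rintro d ⟨h5, h6⟩ ⟨h7, h8⟩
    apply h5
    have h6' : st d = a := h6
    show X (st d) d < d
    rw [h6']
    obtain ⟨i, hi⟩ := h1 d
    rw [hi]
    have h9 : ∀ k, e d k < d := fun k => (hC.en d h8).mapsTo (mem_univ k)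
    have h10 := h7 _ (h9 n) _ (h9 (m a)) _ (h9 n) _ (h9 n)
    cases i with
    | true => exact lt_of_le_of_lt (le_max_left _ _) h10
    | false => exact lt_of_le_of_lt (le_max_right _ _) h10
  · intro a ξ
    rw [hset a ξ]
    by_cases ha : h {d | st d = a} = ⊥
    · apply hbot
      exact le_bot_iff.mp ((hmono _ _ inter_subset_left).trans ha.le)
    · exact ((hX a ha).2 ξ).1
  · intro a ha ξ
    rw [hset a ξ]
    exact ((hX a ha).2 ξ).2

end MP33c03aR
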