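import Pool.Agent.Work.MP_33c03a_lc.StmtsA

/-!
Block R (MP_33c03a_lc), item W1: the order `W1`.
-/

open Set

namespace MP33c03aR

private theorem W1_ctb (o : Ordinal.{0}) (ho : o < Ordinal.omega 1) : (Iio o).Countable := by
  rw [← Cardinal.le_aleph0_iff_set_countable, Cardinal.mk_Iio_ordinal,
    Cardinal.lift_le_aleph0]
  rw [← Cardinal.ord_aleph, Cardinal.lt_ord] at ho
  rw [← Order.lt_succ_iff, ← Cardinal.aleph_zero, Cardinal.succ_aleph]
  simpa using ho

theorem pr_W1 : StW1 := by
  constructor
  · intro x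
    have h1 := W1_ctb x.1 x.2
    have h2 : (Subtype.val '' (Iio x)).Countable := h1.mono (by
      rintro _ ⟨y, hy, rfl⟩
      exact hy)
    exact Set.countable_of_injective_of_countable_image Subtype.val_injective.injOn h2
  · intro h
    rw [Set.countable_univ_iff, ← Cardinal.mk_le_aleph0_iff] at h
    have h3 : Cardinal.mk (Iio (Ordinal.omega 1 : Ordinal.{0})) ≤ Cardinal.aleph0 := h
    rw [Cardinal.mk_Iio_ordinal, Cardinal.lift_le_aleph0, Ordinal.card_omega] at h3
    exact absurd h3 (not_le.2 Cardinal.aleph0_lt_aleph_one)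

end MP33c03aR
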