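import Pool.Agent.Work.MP_33c03a_lc.I_All
import Pool.Agent.Work.MP_33c03a_lc.I_Bnx
import Pool.Agent.Work.MP_33c03a_lc.I_Cbs
import Pool.Agent.Work.MP_33c03a_lc.I_Ccl
import Pool.Agent.Work.MP_33c03a_lc.I_Chm
import Pool.Agent.Work.MP_33c03a_lc.I_Clb
import Pool.Agent.Work.MP_33c03a_lc.I_Cls
import Pool.Agent.Work.MP_33c03a_lc.I_Cnt
import Pool.Agent.Work.MP_33c03a_lc.I_Cod
import Pool.Agent.Work.MP_33c03a_lc.I_Ctl
import Pool.Agent.Work.MP_33c03a_lc.I_Ctx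
import Pool.Agent.Work.MP_33c03a_lc.I_Den
import Pool.Agent.Work.MP_33c03a_lc.I_Det
import Pool.Agent.Work.MP_33c03a_lc.I_Dia
import Pool.Agent.Work.MP_33c03a_lc.I_Dns
import Pool.Agent.Work.MP_33c03a_lc.I_Fin
import Pool.Agent.Work.MP_33c03a_lc.I_Fst
import Pool.Agent.Work.MP_33c03a_lc.I_G1
import Pool.Agent.Work.MP_33c03a_lc.I_G2
import Pool.Agent.Work.MP_33c03a_lc.I_G3
import Pool.Agent.Work.MP_33c03a_lc.I_G4
import Pool.Agent.Work.MP_33c03a_lc.I_Gd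
import Pool.Agent.Work.MP_33c03a_lc.I_Hex
import Pool.Agent.Work.MP_33c03a_lc.I_Htr
import Pool.Agent.Work.MP_33c03a_lc.I_Hts
import Pool.Agent.Work.MP_33c03a_lc.I_Hx
import Pool.Agent.Work.MP_33c03a_lc.I_Inf
import Pool.Agent.Work.MP_33c03a_lc.I_Lmo
import Pool.Agent.Work.MP_33c03a_lc.I_Lub
import Pool.Agent.Work.MP_33c03a_lc.I_Mea
import Pool.Agent.Work.MP_33c03a_lc.I_Met
import Pool.Agent.Work.MP_33c03a_lc.I_Mro
import Pool.Agent.Work.MP_33c03a_lc.I_Neg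
import Pool.Agent.Work.MP_33c03a_lc.I_Nul
import Pool.Agent.Work.MP_33c03a_lc.I_Opn
import Pool.Agent.Work.MP_33c03a_lc.I_Ran
import Pool.Agent.Work.MP_33c03a_lc.I_Reg
import Pool.Agent.Work.MP_33c03a_lc.I_Seq
import Pool.Agent.Work.MP_33c03a_lc.I_Sig
import Pool.Agent.Work.MP_33c03a_lc.I_Sko
import Pool.Agent.Work.MP_33c03a_lc.I_Stp1
import Pool.Agent.Work.MP_33c03a_lc.I_Stp2
import Pool.Agent.Work.MP_33c03a_lc.I_Stp3
import Pool.Agent.Work.MP_33c03a_lc.I_Ulm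
import Pool.Agent.Work.MP_33c03a_lc.I_W1

/-!
Block R (MP_33c03a_lc, captain helper16): assembly.
-/

open Set

namespace MP33c03aR

universe u

/-- `B0` is a complete subalgebra of `B` with a dense subset of cardinality at most `ℵ₁`. -/
def SmallSub {B : Type u} [CompleteBooleanAlgebra B] (B0 : Set B) : Prop :=
  (∀ x ∈ B0, xᶜ ∈ B0) ∧ (∀ s ⊆ B0, sSup s ∈ B0) ∧
    ∃ D ⊆ B0, Cardinal.mk D ≤ Cardinal.aleph 1 ∧ ∀ x ∈ B0, x ≠ ⊥ → ∃ d ∈ D, d ≠ ⊥ ∧ d ≤ x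

/-- `e d` enumerates the ordinals below `d`, for every infinite `d < ω₁`. -/
def Enums (e : W1 → ℕ → W1) : Prop := ∀ d, (Iio d).Infinite → BijOn (e d) univ (Iio d)

theorem final_ctx {B : Type u} [CompleteBooleanAlgebra B] (h : Set W1 → B) (hnt : (⊤ : B) ≠ ⊥)
    (hh : NH h) (e : W1 → ℕ → W1) (he : Enums e) (B0 : Set B) (hB0 : SmallSub B0)
    (hgen : ∀ m n, h {d | (Iio d).Infinite ∧ e d m < e d n} ∈ B0) : Ctx h B0 e := by
  obtain ⟨hc, hs, D, hDB, hDc, hDd⟩ := hB0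
  have hW : Om1 W1 := pr_W1
  have hbot : (⊥ : B) ∈ B0 := by
    rw [← sSup_empty]
    exact hs ∅ (empty_subset _)
  have htop : (⊤ : B) ∈ B0 := by
    rw [← compl_bot]
    exact hc _ hbot
  have hsub : Cardinal.mk (D \ {⊥} : Set B) ≤ Cardinal.aleph 1 :=
    (Cardinal.mk_le_mk_of_subset sdiff_subset).trans hDc
  have h1 : Uncountable W1 := by
    rw [← not_countable_iff, ← Set.countable_univ_iff]
    exact hW.2
  have h2 : Cardinal.aleph 1 ≤ Cardinal.mk W1 := by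
    rw [← Cardinal.succ_aleph0]
    exact Order.succ_le_of_lt (Cardinal.aleph0_lt_mk_iff.mpr h1)
  have h3 : Nonempty ((D \ {⊥} : Set B) ↪ W1) := by
    rw [← Cardinal.lift_mk_le']
    calc Cardinal.lift.{1} (Cardinal.mk (D \ {⊥} : Set B)) ≤ Cardinal.lift.{1} (Cardinal.aleph 1) :=
          Cardinal.lift_le.mpr hsub
      _ = Cardinal.lift.{u} (Cardinal.aleph 1) := by
          rw [Cardinal.lift_aleph, Cardinal.lift_aleph, Ordinal.lift_one, Ordinal.lift_one]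
      _ ≤ Cardinal.lift.{u} (Cardinal.mk W1) := Cardinal.lift_le.mpr h2
  obtain ⟨emb⟩ := h3
  obtain ⟨d0, hd0, hd0b, -⟩ := hDd ⊤ htop hnt
  have hne : Nonempty (D \ {⊥} : Set B) := ⟨⟨d0, hd0, hd0b⟩⟩
  obtain ⟨F, hF⟩ : ∃ F : W1 → (D \ {⊥} : Set B), ∀ y, F (emb y) = y :=
    ⟨Function.invFun emb, Function.leftInverse_invFun emb.injective⟩
  refine ⟨hW, hh, hnt, hc, hs, ?_, he, hgen⟩
  refine ⟨fun a => (F a).1, fun a => hDB (F a).2.1, fun a => (F a).2.2, ?_⟩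
  intro x hx hx0
  obtain ⟨d, hd, hdb, hdx⟩ := hDd x hx hx0
  refine ⟨emb ⟨d, hd, hdb⟩, ?_⟩
  show (F (emb ⟨d, hd, hdb⟩)).1 ≤ x
  rw [hF]
  exact hdx

theorem all_Sig : StSig.{u} := pr_Sig pr_Nul pr_Fst
theorem all_Cnt : StCnt.{u} := pr_Cnt pr_Nul pr_Fst all_Sig
theorem all_Dia : StDia.{u} := pr_Dia
theorem all_Clb : StClb.{u} := pr_Clb pr_Nul all_Cnt all_Dia
theorem all_Reg : StReg.{u} := pr_Reg pr_Nul
theorem all_Cls : StCls.{u} := pr_Cls all_Cnt all_Dia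
theorem all_Mea : StMea.{u} := pr_Mea pr_Nul all_Sig all_Cnt
theorem all_Bnx : StBnx.{u} := pr_Bnx pr_Nul all_Cnt all_Mea
theorem all_Den : StDen.{u} := pr_Den pr_Nul all_Dia all_Mea
theorem all_Ulm : StUlm.{u} := pr_Ulm pr_Nul all_Sig all_Cnt
theorem all_Stp1 : StStp1.{u} := pr_Stp1 pr_Nul all_Cnt all_Reg all_Ulm
theorem all_Stp2 : StStp2.{u} := pr_Stp2 pr_Nul all_Mea all_Bnx pr_Cod all_Stp1
theorem all_Stp3 : StStp3.{u} := pr_Stp3 pr_Nul all_Cnt all_Reg all_Cls all_Mea all_Stp2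
theorem all_Seq : StSeq.{u} := pr_Seq pr_Nul all_Cnt all_Cls all_Mea pr_Cod all_Stp3
theorem all_Dns : StDns.{u} := pr_Dns pr_Nul all_Sig all_Cnt all_Reg
theorem all_Det : StDet.{u} := pr_Det all_Mea
theorem all_Met : StMet.{u} := pr_Met pr_Nul all_Dia all_Mea all_Dns all_Det
theorem all_Fin : StFin.{u} :=
  pr_Fin pr_Nul all_Sig all_Clb all_Den all_Seq all_Det all_Met
theorem all_Hx : StHx := pr_Hx pr_Htr
theorem all_G1 : StG1 := pr_G1 pr_Htr pr_Ctl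
theorem all_G2 : StG2 := pr_G2 pr_Htr pr_Ctl
theorem all_G3 : StG3 := pr_G3 pr_Htr all_Hx pr_Ctl all_G1
theorem all_G4 : StG4 := pr_G4 pr_Htr all_Hx pr_Ctl all_G1 all_G2
theorem all_Gd : StGd := pr_Gd all_Hx pr_Ctl pr_Sko all_G1 all_G2 all_G3 all_G4
theorem all_Hts : StHts := pr_Hts pr_Chm
theorem all_Neg : StNeg := pr_Neg pr_Chm pr_Lub
theorem all_Mro : StMro :=
  pr_Mro all_Hx pr_Hex (pr_Cbs pr_Ran) all_Gd all_Hts pr_Lub pr_Opn pr_All all_Neg pr_Inf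
theorem all_Lmo : StLmo := pr_Lmo pr_Ccl

/-- `MRP` implies that every ladder system is avoided by a club (Moore). -/
theorem mrp_lm (h : MRP) : LM W1 := all_Lmo (all_Mro h)

/-- The local form. -/
theorem final_local (hH : MRP ∨ LM W1) (B : Type u) [CompleteBooleanAlgebra B] [Nontrivial B]
    (h : Set W1 → B) (hh : NH h) (e : W1 → ℕ → W1) (he : Enums e) (B0 : Set B)
    (hB0 : SmallSub B0) : ∃ m n, h {d | (Iio d).Infinite ∧ e d m < e d n} ∉ B0 := by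
  by_contra hcon
  push Not at hcon
  have hnt : (⊤ : B) ≠ ⊥ := top_ne_bot
  exact all_Fin W1 B h B0 e (final_ctx h hnt hh e he B0 hB0 hcon) (hH.elim mrp_lm id)

/-- The global form. -/
theorem final_global (hH : MRP ∨ LM W1) (B : Type u) [CompleteBooleanAlgebra B] [Nontrivial B]
    (hB : ∀ E : Set B, E.Countable → ∃ B0, E ⊆ B0 ∧ SmallSub B0) :
    ¬ ∃ h : Set W1 → B, NH h := by
  rintro ⟨h, hh⟩
  have hC : CountGen B := by
    intro E hE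
    obtain ⟨B0, h1, h2, h3, h4⟩ := hB E hE
    exact ⟨B0, h1, h2, h3, h4⟩
  obtain ⟨B0, e, hctx⟩ := pr_Ctx W1 B h top_ne_bot pr_W1 hh hC
  exact all_Fin W1 B h B0 e hctx (hH.elim mrp_lm id)

end MP33c03aR
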