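import Pool.Agent.Work.MP_33c03a_lc.Defs

/-!
Block R (MP_33c03a_lc, captain helper16): statements of the items of part B (MRP in `ZFSet`).
Every item file proves `theorem xxx : StXxx`, if useful with hypotheses `(h : StYyy)` for the
statements named in the task.
-/

open Set

namespace MP33c03aR

/-- Item Ran: countable classes are sets. -/
def StRan : Prop := ∀ S : Set ZFSet.{0}, S.Countable → ∃ Y : ZFSet.{0}, (∀ z, z ∈ Y ↔ z ∈ S) ∧ Ctb Y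

/-- Item Htr: `H(θ)` is transitive and closed under subsets. -/
def StHtr : Prop := ∀ (θ : Cardinal.{0}) (x : ZFSet.{0}), x ∈ HH θ →
    (∀ y ∈ x, y ∈ HH θ) ∧ ∀ y, y ⊆ x → y ∈ HH θ

/-- Item Hct: countable subsets of `H(θ)`. -/
def StHct : Prop := ∀ θ : Cardinal.{0}, θ.IsRegular → Cardinal.aleph0 < θ →
    ∀ Y : ZFSet.{0}, Ctb Y → (∀ z ∈ Y, z ∈ HH θ) → Y ∈ HH θ

/-- Item Hx: consequences of `[ω₁]^ω ∈ H(θ)`. -/
def StHx : Prop := ∀ θ : Cardinal.{0}, θ.IsRegular → CS O1 ∈ HH θ →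
    Cardinal.aleph 1 < θ ∧ O1 ∈ HH θ ∧ ∅ ∈ HH θ ∧ ¬ Ctb O1

/-- Item Hex: every set is in some `H(θ)`. -/
def StHex : Prop := ∀ x : ZFSet.{0}, ∃ θ : Cardinal.{0}, θ.IsRegular ∧ x ∈ HH θ

/-- Item Ctl: conjunctions, consequences, constants and unary functions. -/
def StCtl : Prop := ∀ θ : Cardinal.{0},
    (∀ P Q : ZFSet.{0} → Prop, Ctl θ P → Ctl θ Q → Ctl θ (fun M => P M ∧ Q M)) ∧
    (∀ P Q : ZFSet.{0} → Prop, Ctl θ P → (∀ M, P M → Q M) → Ctl θ Q) ∧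
    (∀ a ∈ HH θ, Ctl θ (fun M => a ∈ M)) ∧
    (∀ f : ZFSet.{0} → ZFSet.{0}, ∅ ∈ HH θ → (∀ x ∈ HH θ, f x ∈ HH θ) →
      Ctl θ (fun M => ∀ x ∈ M, f x ∈ M)) ∧
    (∀ f : ℕ → ZFSet.{0} → ZFSet.{0}, ∅ ∈ HH θ → (∀ n, ∀ x ∈ HH θ, f n x ∈ HH θ) →
      Ctl θ (fun M => ∀ n, ∀ x ∈ M, f n x ∈ M)) ∧
    (∀ f : ZFSet.{0} → ZFSet.{0} → ZFSet.{0} → ZFSet.{0}, ∅ ∈ HH θ →
      (∀ x ∈ HH θ, ∀ y ∈ HH θ, ∀ z ∈ HH θ, f x y z ∈ HH θ) →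
      Ctl θ (fun M => ∀ x ∈ M, ∀ y ∈ M, ∀ z ∈ M, f x y z ∈ M))

/-- Item Cbs: closure functions give clubs. -/
def StCbs : Prop := ∀ (θ : Cardinal.{0}) (G : ℕ → List ZFSet.{0} → ZFSet.{0}),
    (∀ i l, (∀ z ∈ l, z ∈ HH θ) → G i l ∈ HH θ) →
    ClubIn (HH θ) {M | Ctb M ∧ (∀ z ∈ M, z ∈ HH θ) ∧ Clo G M}

/-- Item Sko: Skolem functions. -/
def StSko : Prop := ∀ θ : Cardinal.{0}, θ.IsRegular → Ctl θ (ElemIn θ)

/-- Item G1: countable elements are subsets. -/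
def StG1 : Prop := ∀ θ : Cardinal.{0}, θ.IsRegular → Ctl θ (fun M => ∀ Y ∈ M, Ctb Y → Y ⊆ M)

/-- Item G2: intersections with `ω₁`, and elements of non-empty sets. -/
def StG2 : Prop := ∀ θ : Cardinal.{0}, θ.IsRegular →
    Ctl θ (fun M => (∀ N ∈ M, N ∩ O1 ∈ M) ∧ ∀ E ∈ M, (∃ Y, Y ∈ E) → ∃ Y ∈ E, Y ∈ M)

/-- Item G3: `M ∩ ω₁` is a limit ordinal. -/
def StG3 : Prop := ∀ θ : Cardinal.{0}, θ.IsRegular → CS O1 ∈ HH θ →
    Ctl θ (fun M => ∃ δ, Hgt M δ)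

/-- Item G4: `M ∩ ω₁` belongs to the clubs in `M`. -/
def StG4 : Prop := ∀ θ : Cardinal.{0}, θ.IsRegular → CS O1 ∈ HH θ →
    Ctl θ (fun M => ∀ E ∈ M, ClubIn {z | z ∈ O1} {Y | Y ∈ E} → M ∩ O1 ∈ E)

/-- Item Gd: the properties together. -/
def StGd : Prop := ∀ θ : Cardinal.{0}, θ.IsRegular → CS O1 ∈ HH θ → Ctl θ (Gd θ)

/-- Item Chm: the chain is increasing. -/
def StChm : Prop := ∀ (θ : Cardinal.{0}) (N : Ordinal.{0} → ZFSet.{0}), Chn θ N →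
    ∀ ξ η, ξ < η → η < Ordinal.omega 1 → N ξ ∈ N η ∧ N ξ ⊆ N η

/-- Item Hts: the heights of the models of the chain. -/
def StHts : Prop := ∀ (θ : Cardinal.{0}) (N : Ordinal.{0} → ZFSet.{0}), Chn θ N →
    ∃ c, Cseq c ∧ ∀ ξ < Ordinal.omega 1, Hgt (N ξ) (c ξ)

/-- Item Lub: least upper bounds. -/
def StLub : Prop :=
    (∀ Y s t, Lub Y s → Lub Y t → s = t) ∧
    (∀ M δ, Hgt M δ → Ctb M → M ∩ O1 ∈ CS O1 ∧ Lub (M ∩ O1) δ)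

/-- Item Opn: the sets `Sg` are open. -/
def StOpn : Prop := ∀ (D : Set Ordinal.{0}) (δ : Ordinal.{0}), δ < Ordinal.omega 1 →
    (∀ g < δ, (D ∩ Iic g).Finite) → EOpen O1 (Sg D δ)

/-- Item All: the whole space is open and stationary. -/
def StAll : Prop := ∀ (θ : Cardinal.{0}) (M : ZFSet.{0}), Gd θ M →
    EOpen O1 {Y | Y ∈ CS O1} ∧ MStat O1 M {Y | Y ∈ CS O1}

/-- Item Neg: what happens if `Sg` is not stationary. -/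
def StNeg : Prop := ∀ (θ : Cardinal.{0}) (N : Ordinal.{0} → ZFSet.{0}) (c : Ordinal.{0} → Ordinal.{0}),
    Chn θ N → Cseq c → (∀ ξ < Ordinal.omega 1, Hgt (N ξ) (c ξ)) →
    ∀ (D : Set Ordinal.{0}) (ν : Ordinal.{0}), ν < Ordinal.omega 1 → Order.IsSuccLimit ν →
    ¬ MStat O1 (N ν) (Sg D (c ν)) → ∃ ν₀ < ν, ∀ ξ, ν₀ < ξ → ξ < ν → c ξ ∈ D

/-- Item Inf: the negative case is impossible at limits of limits. -/
def StInf : Prop := ∀ c : Ordinal.{0} → Ordinal.{0}, Cseq c → ∀ (D : Set Ordinal.{0})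
    (ν : Ordinal.{0}), ν < Ordinal.omega 1 → LL ν → (∀ g < c ν, (D ∩ Iic g).Finite) →
    ¬ ∃ ν₀ < ν, ∀ ξ, ν₀ < ξ → ξ < ν → c ξ ∈ D

/-- Item Mro: from `MRP` to the ladder form. -/
def StMro : Prop := MRP → LMo

/-- Item Ccl: the club of the heights of limit index. -/
def StCcl : Prop := ∀ c : Ordinal.{0} → Ordinal.{0}, Cseq c →
    IsClb {d : W1 | ∃ ν < Ordinal.omega 1, Order.IsSuccLimit ν ∧ d.1 = c ν} ∧
    ∀ d : W1, LimPt {d : W1 | ∃ ν < Ordinal.omega 1, Order.IsSuccLimit ν ∧ d.1 = c ν} d →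
      ∃ ν < Ordinal.omega 1, LL ν ∧ d.1 = c ν

/-- Item Lmo: from the ladder form to `LM W1`. -/
def StLmo : Prop := LMo → LM W1

end MP33c03aR
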