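import Pool.Agent.Work.MP_33c03a_lc.StmtsB

open Set

namespace MP33c03aR

theorem pr_All : StAll := by
  intro θ M G
  refine ⟨⟨fun Y hY => hY, fun Y hY => ⟨∅, Y, ?_, hY, fun z hz => absurd hz (ZFSet.notMem_empty z),
    fun z hz => hz, fun Z _ hZ => ?_⟩⟩, ?_⟩
  · have : {z | z ∈ (∅ : ZFSet.{0})} = ∅ := by
      ext z; simp
    rw [this]; exact finite_empty
  · have hY' : Y ∈ CS O1 := hY
    rw [CS, ZFSet.mem_sep, ZFSet.mem_powerset] at hY'
    change Z ∈ CS O1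
    rw [CS, ZFSet.mem_sep, ZFSet.mem_powerset]
    exact ⟨fun z hz => hY'.1 (hZ hz), Set.Countable.mono (fun z hz => hZ hz) hY'.2⟩
  · intro E hE hcl
    have he : ∃ Y, Y ∈ E := by
      obtain ⟨Z, hZ, -⟩ := hcl.2.1 ∅ (by
        have : {z | z ∈ (∅ : ZFSet.{0})} = ∅ := by
          ext z; simp
        rw [Ctb, this]; exact countable_empty) (fun z hz => absurd hz (ZFSet.notMem_empty z))
      exact ⟨Z, hZ⟩
    obtain ⟨Y, hY1, hY2⟩ := G.ne E hE he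
    refine ⟨Y, hY1, ?_, hY2⟩
    obtain ⟨h1, h2⟩ := hcl.1 Y hY1
    change Y ∈ CS O1
    rw [CS, ZFSet.mem_sep, ZFSet.mem_powerset]
    exact ⟨fun z hz => h2 z hz, h1⟩

end MP33c03aR
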