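import Pool.Agent.Work.MP_33c03a_lc.StmtsB

open Set

namespace MP33c03aR

theorem pr_Gd (hHx : StHx) (hCtl : StCtl) (hSko : StSko) (hG1 : StG1) (hG2 : StG2) (hG3 : StG3)
    (hG4 : StG4) : StGd := by
  intro θ hθ hX
  obtain ⟨c1, c2, c3, -, -, -⟩ := hCtl θ
  obtain ⟨G, g1, g2⟩ := c1 _ _ (c1 _ _ (hSko θ hθ) (c3 _ (hHx θ hθ hX).2.1))
    (c1 _ _ (c1 _ _ (hG1 θ hθ) (hG2 θ hθ)) (c1 _ _ (hG3 θ hθ hX) (hG4 θ hθ hX)))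
  refine ⟨G, g1, fun M hM hs hc => ?_⟩
  obtain ⟨⟨a1, a2⟩, ⟨a3, a4, a5⟩, a6, a7⟩ := g2 M hM hs hc
  exact ⟨hM, hs, a1, a2, a3, a4, a6, a7, a5⟩

end MP33c03aR
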