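import Pool.Agent.Work.MP_33c03a_lc.StmtsB

open Set

namespace MP33c03aR

theorem pr_Neg (hChm : StChm) (hLub : StLub) : StNeg := by
  intro θ N c C hc hN D ν hν hlim hst
  have hst' : ∃ E ∈ N ν, ClubIn {z | z ∈ O1} {Y | Y ∈ E} ∧
      ∀ Y ∈ E, Y ∈ Sg D (c ν) → Y ∉ N ν := by
    by_contra hcon
    apply hst
    intro E hE hcl
    by_contra hcon2
    apply hcon
    exact ⟨E, hE, hcl, fun Y hY hY2 hY3 => hcon2 ⟨Y, hY, hY2, hY3⟩⟩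
  obtain ⟨E, hE, hcl, hno⟩ := hst'
  obtain ⟨ν₀, hν₀, hE0⟩ := (C.cont ν hν hlim E).1 hE
  refine ⟨ν₀, hν₀, fun ξ h1 h2 => ?_⟩
  have hξ : ξ < Ordinal.omega 1 := h2.trans hν
  have hs : ξ + 1 < ν := hlim.succ_lt h2
  have e1 : E ∈ N ξ := (hChm θ N C ν₀ ξ h1 hξ).2 hE0
  have e2 : N ξ ∩ O1 ∈ E := (C.gd ξ hξ).club E e1 hcl
  have e3 : N ξ ∩ O1 ∈ N (ξ + 1) := (C.gd (ξ + 1) (hs.trans hν)).tr _ (C.mem ξ hξ)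
  have e4 : N ξ ∩ O1 ∈ N ν := (hChm θ N C (ξ + 1) ν hs hν).2 e3
  by_contra hD
  obtain ⟨l1, l2⟩ := hLub.2 (N ξ) (c ξ) (hN ξ hξ) (C.gd ξ hξ).ct
  exact hno _ e2 ⟨l1, c ξ, l2, hc.mono ξ ν h2 hν, hD⟩ e4

end MP33c03aR
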