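import Pool.Agent.Work.MP_33c03a_lc.StmtsA

/-!
Item Ctx of block R (MP_33c03a_lc): from the cardinal form of the hypothesis to the standing
assumptions.
-/

open Set

namespace MP33c03aR

universe u

private theorem Ctx_enum {W : Type 1} [LinearOrder W] (hW : Om1 W) :
    ∃ e : W → ℕ → W, ∀ d, (Iio d).Infinite → BijOn (e d) univ (Iio d) := by
  have h1 : ∀ d : W, ∃ f : ℕ → W, (Iio d).Infinite → BijOn f univ (Iio d) := by
    intro d
    by_cases hd : (Iio d).Infinite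
    · obtain ⟨hden⟩ := Set.countable_infinite_iff_nonempty_denumerable.mp ⟨hW.1 d, hd⟩
      refine ⟨fun n => (((Denumerable.eqv (Iio d)).symm n : Iio d) : W), fun _ => ⟨?_, ?_, ?_⟩⟩
      · intro n _
        exact ((Denumerable.eqv (Iio d)).symm n).2
      · intro n _ m _ hnm
        exact (Denumerable.eqv (Iio d)).symm.injective (Subtype.ext hnm)
      · intro x hx
        refine ⟨Denumerable.eqv (Iio d) ⟨x, hx⟩, mem_univ _, ?_⟩
        show (((Denumerable.eqv (Iio d)).symm (Denumerable.eqv (Iio d) ⟨x, hx⟩) : Iio d) : W) = x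
        rw [Equiv.symm_apply_apply]
    · exact ⟨fun _ => d, fun h => absurd h hd⟩
  choose e he using h1
  exact ⟨e, he⟩

private theorem Ctx_card {W : Type 1} [LinearOrder W] (hW : Om1 W) {B : Type u} (D : Set B)
    (hD : Cardinal.mk D ≤ Cardinal.aleph 1) : Nonempty (D ↪ W) := by
  have h1 : Uncountable W := by
    rw [← not_countable_iff, ← Set.countable_univ_iff]
    exact hW.2
  have h2 : Cardinal.aleph 1 ≤ Cardinal.mk W := by
    rw [← Cardinal.succ_aleph0]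
    exact Order.succ_le_of_lt (Cardinal.aleph0_lt_mk_iff.mpr h1)
  rw [← Cardinal.lift_mk_le']
  calc Cardinal.lift.{1} (Cardinal.mk D) ≤ Cardinal.lift.{1} (Cardinal.aleph 1) :=
        Cardinal.lift_le.mpr hD
    _ = Cardinal.lift.{u} (Cardinal.aleph 1) := by
        rw [Cardinal.lift_aleph, Cardinal.lift_aleph, Ordinal.lift_one, Ordinal.lift_one]
    _ ≤ Cardinal.lift.{u} (Cardinal.mk W) := Cardinal.lift_le.mpr h2

theorem pr_Ctx : StCtx.{u} := by
  intro W _ _ B _ h hnt hW hh hgen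
  obtain ⟨e, he⟩ := Ctx_enum hW
  obtain ⟨B0, hE, hc, hs, D, hDB, hDc, hDd⟩ := hgen
    (range fun p : ℕ × ℕ => h {d | (Iio d).Infinite ∧ e d p.1 < e d p.2}) (countable_range _)
  have hbot : (⊥ : B) ∈ B0 := by
    rw [← sSup_empty]
    exact hs ∅ (empty_subset _)
  have htop : (⊤ : B) ∈ B0 := by
    rw [← compl_bot]
    exact hc _ hbot
  have hsub : Cardinal.mk (D \ {⊥} : Set B) ≤ Cardinal.aleph 1 :=
    (Cardinal.mk_le_mk_of_subset sdiff_subset).trans hDc
  obtain ⟨emb⟩ := Ctx_card hW (D \ {⊥} : Set B) hsub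
  obtain ⟨d0, hd0, hd0b, -⟩ := hDd ⊤ htop hnt
  have hne : Nonempty (D \ {⊥} : Set B) := ⟨⟨d0, hd0, hd0b⟩⟩
  obtain ⟨F, hF⟩ : ∃ F : W → (D \ {⊥} : Set B), ∀ y, F (emb y) = y :=
    ⟨Function.invFun emb, Function.leftInverse_invFun emb.injective⟩
  refine ⟨B0, e, ⟨hW, hh, hnt, hc, hs, ?_, he, ?_⟩⟩
  · refine ⟨fun a => (F a).1, fun a => hDB (F a).2.1, fun a => (F a).2.2, ?_⟩
    intro x hx hx0
    obtain ⟨d, hd, hdb, hdx⟩ := hDd x hx hx0
    refine ⟨emb ⟨d, hd, hdb⟩, ?_⟩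
    show (F (emb ⟨d, hd, hdb⟩)).1 ≤ x
    rw [hF]
    exact hdx
  · intro m n
    exact hE ⟨(m, n), rfl⟩

end MP33c03aR
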