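import Pool.Agent.Work.MP_33c03a_lc.StmtsB

/-!
Block R (MP_33c03a_lc), item Hct: countable subsets of `H(θ)` are elements of `H(θ)`.
-/

open Set

namespace MP33c03aR

private theorem Hct_card {Y : ZFSet.{0}} (h : Ctb Y) : ZFSet.card Y ≤ Cardinal.aleph0 := by
  have h1 := ZFSet.cardinalMk_coe_sort (x := Y)
  have h2 : Cardinal.mk Y ≤ Cardinal.aleph0 := by
    rw [Cardinal.mk_le_aleph0_iff]
    exact h.to_subtype
  rw [h1, Cardinal.lift_le_aleph0] at h2
  exact h2

theorem pr_Hct : StHct := by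
  intro θ hreg hθ Y hY hH
  rcases ({z | z ∈ Y} : Set ZFSet.{0}).eq_empty_or_nonempty with h0 | hne
  · refine ⟨∅, ZFSet.isTransitive_empty, ?_, ?_⟩
    · intro z hz
      have : z ∈ ({z | z ∈ Y} : Set ZFSet.{0}) := hz
      rw [h0] at this
      exact absurd this (Set.notMem_empty _)
    · rw [ZFSet.card_empty]
      exact Cardinal.aleph0_pos.trans hθ
  · obtain ⟨e, he⟩ := Set.Countable.exists_eq_range hY hne
    have hmem : ∀ n, e n ∈ Y := fun n => by
      have : e n ∈ ({z | z ∈ Y} : Set ZFSet.{0}) := by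
        rw [he]
        exact Set.mem_range_self n
      exact this
    have hex : ∀ z ∈ Y, ∃ n, e n = z := fun z hz => by
      have : z ∈ ({z | z ∈ Y} : Set ZFSet.{0}) := hz
      rw [he] at this
      exact this
    choose t ht1 ht2 ht3 using fun n => hH (e n) (hmem n)
    refine ⟨Y ∪ ZFSet.iUnion t, ?_, ?_, ?_⟩
    · intro y hy z hz
      rw [ZFSet.mem_union] at hy ⊢
      right
      rw [ZFSet.mem_iUnion]
      rcases hy with hy | hy
      · obtain ⟨n, hn⟩ := hex y hy
        exact ⟨n, ht2 n (hn.symm ▸ hz)⟩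
      · rw [ZFSet.mem_iUnion] at hy
        obtain ⟨n, hn⟩ := hy
        exact ⟨n, ht1 n y hn hz⟩
    · intro z hz
      rw [ZFSet.mem_union]
      exact Or.inl hz
    · refine ZFSet.card_union_le.trans_lt ?_
      refine Cardinal.add_lt_of_lt hθ.le ((Hct_card hY).trans_lt hθ) ?_
      have h1 := ZFSet.lift_card_iUnion_le_sum_card (f := t)
      rw [Cardinal.lift_id] at h1
      refine h1.trans_lt (Cardinal.sum_lt_of_isRegular hreg ?_ ht3)
      rw [Cardinal.mk_nat]
      exact hθ

end MP33c03aR
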