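import Pool.Agent.Work.MP_33c03a_lc.StmtsA

/-!
Item Ulm of block R (MP_33c03a_lc): splitting a positive set.
-/

open Set

namespace MP33c03aR

universe u

theorem pr_Ulm (hNul : StNul.{u}) (hSig : StSig.{u}) (hCnt : StCnt.{u}) : StUlm.{u} := by
  intro W _ _ B _ h B0 e hC T hT
  obtain ⟨hemp, hmono, -, -, -, htopi⟩ := hNul W B h hC.nh
  obtain ⟨-, hlt, hinf⟩ := hCnt W B h hC.om hC.nh
  by_contra hcon
  push Not at hcon
  have hU : (⋃ m, {x | h (T ∩ {d | (Iio d).Infinite ∧ e d m = x}) ≠ ⊥}).Countable :=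
    countable_iUnion hcon
  obtain ⟨x, hx⟩ : ∃ x, x ∉ ⋃ m, {x | h (T ∩ {d | (Iio d).Infinite ∧ e d m = x}) ≠ ⊥} := by
    by_contra hall
    push Not at hall
    apply hC.om.2
    refine hU.mono fun y _ => hall y
  have hx' : ∀ m, h (T ∩ {d | (Iio d).Infinite ∧ e d m = x}) = ⊥ := by
    intro m
    by_contra h1
    exact hx (mem_iUnion.mpr ⟨m, h1⟩)
  apply hT
  have h1 : h (T ∩ {d | x < d} ∩ {d : W | (Iio d).Infinite}) = h T := by
    rw [htopi _ _ hinf, htopi _ _ (hlt x)]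
  rw [← h1]
  refine le_bot_iff.mp ?_
  calc h (T ∩ {d | x < d} ∩ {d : W | (Iio d).Infinite})
      ≤ h (⋃ m, T ∩ {d | (Iio d).Infinite ∧ e d m = x}) := by
        apply hmono
        rintro d ⟨⟨h2, h3⟩, h4⟩
        obtain ⟨m, -, hm⟩ := (hC.en d h4).surjOn h3
        exact mem_iUnion.mpr ⟨m, h2, h4, hm⟩
    _ = ⨆ m, h (T ∩ {d | (Iio d).Infinite ∧ e d m = x}) := hSig W B h hC.om hC.nh _
    _ = ⊥ := by simp only [hx', iSup_bot]
    _ ≤ ⊥ := le_rfl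

end MP33c03aR
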