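import Pool.Agent.Work.MP_33c03a_lc.Defs

/-!
Block R (MP_33c03a_lc, captain helper16): statements of the items of part A (Boolean part).
Every item file proves `theorem xxx : StXxx`, if useful with hypotheses `(h : StYyy)` for the
statements named in the task.
-/

open Set

namespace MP33c03aR

universe u

/-- Item Nul. -/
def StNul : Prop := ∀ (W : Type 1) [LinearOrder W] (B : Type u) [CompleteBooleanAlgebra B]
    (h : Set W → B), NH h →
    h ∅ = ⊥ ∧ (∀ A A', A ⊆ A' → h A ≤ h A') ∧ (∀ A A', h (A ∪ A') = h A ⊔ h A') ∧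
    (∀ A A', h (A \ A') = ⊥ ↔ h A ≤ h A') ∧ (∀ A, h A = ⊤ ↔ h Aᶜ = ⊥) ∧
    (∀ A A', h A' = ⊤ → h (A ∩ A') = h A)

/-- Item Fst: the first `ω` elements. -/
def StFst : Prop := ∀ (W : Type 1) [LinearOrder W] [WellFoundedLT W], Om1 W →
    ∃ w : ℕ → W, StrictMono w ∧ (∀ x, ¬ w 0 > x) ∧ ∀ n x, x < w n → ∃ m, x = w m

/-- Item Sig: sigma-additivity. -/
def StSig : Prop := ∀ (W : Type 1) [LinearOrder W] [WellFoundedLT W] (B : Type u)
    [CompleteBooleanAlgebra B] (h : Set W → B), Om1 W → NH h →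
    ∀ A : ℕ → Set W, h (⋃ n, A n) = ⨆ n, h (A n)

/-- Item Cnt: countable sets are null. -/
def StCnt : Prop := ∀ (W : Type 1) [LinearOrder W] [WellFoundedLT W] (B : Type u)
    [CompleteBooleanAlgebra B] (h : Set W → B), Om1 W → NH h →
    (∀ A, A.Countable → h A = ⊥) ∧ (∀ x, h {d | x < d} = ⊤) ∧ h {d : W | (Iio d).Infinite} = ⊤

/-- Item Dia: diagonal intersections. -/
def StDia : Prop := ∀ (W : Type 1) [LinearOrder W] (B : Type u) [CompleteBooleanAlgebra B]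
    (h : Set W → B), NH h → ∀ A : W → Set W, h {d | ∀ x < d, d ∈ A x} = ⨅ x, h (A x)

/-- Item Clb: clubs have measure one. -/
def StClb : Prop := ∀ (W : Type 1) [LinearOrder W] [WellFoundedLT W] (B : Type u)
    [CompleteBooleanAlgebra B] (h : Set W → B), Om1 W → NH h →
    ∀ C : Set W, IsClb C → h C = ⊤ ∧ h {d | LimPt C d} = ⊤

/-- Item Reg: regressive functions. -/
def StReg : Prop := ∀ (W : Type 1) [LinearOrder W] [WellFoundedLT W] (B : Type u)
    [CompleteBooleanAlgebra B] (h : Set W → B), Om1 W → NH h →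
    (∀ f : W → W, h {d | f d < d} = ⊤ → ∀ A, h A = ⨆ x, h (A ∩ {d | f d = x})) ∧
    (∀ f : W → W, h {d | f d < d} = ⊤ → ∀ A, h A ≠ ⊥ → ∃ x, h (A ∩ {d | f d = x}) ≠ ⊥)

/-- Item Cls: almost every `d` is closed under a given function. -/
def StCls : Prop := ∀ (W : Type 1) [LinearOrder W] [WellFoundedLT W] (B : Type u)
    [CompleteBooleanAlgebra B] (h : Set W → B), Om1 W → NH h →
    ∀ F : W → W → W → W → W,
      h {d | ∀ a < d, ∀ b < d, ∀ c < d, ∀ c' < d, F a b c c' < d} = ⊤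

/-- Item Mea: the measured sets. -/
def StMea : Prop := ∀ (W : Type 1) [LinearOrder W] [WellFoundedLT W] (B : Type u)
    [CompleteBooleanAlgebra B] (h : Set W → B) (B0 : Set B) (e : W → ℕ → W), Ctx h B0 e →
    (∀ A, h A = ⊥ → h A ∈ B0) ∧ (∀ A, h A = ⊤ → h A ∈ B0) ∧ (∀ A, h A ∈ B0 → h Aᶜ ∈ B0) ∧
    (∀ A A', h A ∈ B0 → h A' ∈ B0 → h (A ∩ A') ∈ B0) ∧
    (∀ A A', h A ∈ B0 → h A' ∈ B0 → h (A ∪ A') ∈ B0) ∧
    (∀ A : ℕ → Set W, (∀ n, h (A n) ∈ B0) → h (⋃ n, A n) ∈ B0 ∧ h (⋂ n, A n) ∈ B0) ∧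
    (∀ A : W → Set W, (∀ x, h (A x) ∈ B0) →
      h {d | ∃ x < d, d ∈ A x} ∈ B0 ∧ h {d | ∀ x < d, d ∈ A x} ∈ B0) ∧
    (∀ (A : W → Set W) (g : W), (∀ x, h (A x) ∈ B0) →
      h {d | ∃ x < g, d ∈ A x} ∈ B0 ∧ h {d | ∀ x < g, d ∈ A x} ∈ B0) ∧
    (∀ A A', h (A \ A') = ⊥ → h (A' \ A) = ⊥ → h A ∈ B0 → h A' ∈ B0) ∧
    (∀ f : W → W, h {d | f d < d} = ⊤ → (∀ a, h {d | f d = a} ∈ B0) →
      ∀ A : Set W, h {d | f d ∈ A} ∈ B0)

/-- Item Bnx: the sets `{d | e d n = x}` are measured. -/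
def StBnx : Prop := ∀ (W : Type 1) [LinearOrder W] [WellFoundedLT W] (B : Type u)
    [CompleteBooleanAlgebra B] (h : Set W → B) (B0 : Set B) (e : W → ℕ → W), Ctx h B0 e →
    ∀ x n, h {d | (Iio d).Infinite ∧ e d n = x} ∈ B0

/-- Item Den: a dense family of measured sets. -/
def StDen : Prop := ∀ (W : Type 1) [LinearOrder W] [WellFoundedLT W] (B : Type u)
    [CompleteBooleanAlgebra B] (h : Set W → B) (B0 : Set B) (e : W → ℕ → W), Ctx h B0 e →
    ∃ S : W → Set W, DF h B0 S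

/-- Item Ulm: splitting a positive set. -/
def StUlm : Prop := ∀ (W : Type 1) [LinearOrder W] [WellFoundedLT W] (B : Type u)
    [CompleteBooleanAlgebra B] (h : Set W → B) (B0 : Set B) (e : W → ℕ → W), Ctx h B0 e →
    ∀ T, h T ≠ ⊥ → ∃ m, ¬ {x | h (T ∩ {d | (Iio d).Infinite ∧ e d m = x}) ≠ ⊥}.Countable

/-- Item Cod: a pairing function, and uncountable sets have the size of `W`. -/
def StCod : Prop := ∀ (W : Type 1) [LinearOrder W] [WellFoundedLT W], Om1 W →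
    (∃ code : W → W → W, ∀ a b a' b', code a b = code a' b' → a = a' ∧ b = b') ∧
    ∀ K : Set (W × Bool × W), ¬ K.Countable → ∃ g : W × Bool × W → W, BijOn g K univ

/-- Item Stp1: the step for one fibre. -/
def StStp1 : Prop := ∀ (W : Type 1) [LinearOrder W] [WellFoundedLT W] (B : Type u)
    [CompleteBooleanAlgebra B] (h : Set W → B) (B0 : Set B) (e : W → ℕ → W), Ctx h B0 e →
    ∀ S : W → Set W, DF h B0 S → ∀ (T : Set W) (n : ℕ), h T ∈ B0 → h T ≠ ⊥ →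
    ∃ (m : ℕ) (K : Set (W × Bool × W)), ¬ K.Countable ∧
      (∀ b i c, (b, i, c) ∈ K ↔
        h (T ∩ {d | (Iio d).Infinite ∧ e d n = b} ∩ {d | (d ∈ S b ↔ i = true)} ∩
          {d | (Iio d).Infinite ∧ e d m = c}) ≠ ⊥) ∧
      h (T ∩ {d | ¬ ∃ b i c, (b, i, c) ∈ K ∧ (Iio d).Infinite ∧ e d n = b ∧
        (d ∈ S b ↔ i = true) ∧ e d m = c}) = ⊥

/-- Item Stp2: the step for one fibre, with a function. -/
def StStp2 : Prop := ∀ (W : Type 1) [LinearOrder W] [WellFoundedLT W] (B : Type u)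
    [CompleteBooleanAlgebra B] (h : Set W → B) (B0 : Set B) (e : W → ℕ → W), Ctx h B0 e →
    ∀ S : W → Set W, DF h B0 S → ∀ (T : Set W) (n : ℕ), h T ∈ B0 → h T ≠ ⊥ →
    ∃ (x : W → W) (m : ℕ) (g : W → Bool → W → W),
      (∀ d, ∃ i, x d = g (e d n) i (e d m)) ∧
      ∀ ξ, h (T ∩ {d | x d = ξ}) ∈ B0 ∧ h (T ∩ {d | x d = ξ}) ≠ ⊥ ∧
        Dec h e S n (T ∩ {d | x d = ξ})

/-- Item Stp3: the step lemma. -/
def StStp3 : Prop := ∀ (W : Type 1) [LinearOrder W] [WellFoundedLT W] (B : Type u)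
    [CompleteBooleanAlgebra B] (h : Set W → B) (B0 : Set B) (e : W → ℕ → W), Ctx h B0 e →
    ∀ S : W → Set W, DF h B0 S → ∀ (st : W → W) (n : ℕ), RG h B0 st →
    ∃ x : W → W, h {d | x d < d} = ⊤ ∧
      (∀ a ξ, h {d | st d = a ∧ x d = ξ} ∈ B0) ∧
      ∀ a, h {d | st d = a} ≠ ⊥ → ∀ ξ, h {d | st d = a ∧ x d = ξ} ≠ ⊥ ∧
        Dec h e S n {d | st d = a ∧ x d = ξ}

/-- Item Seq: the construction of length `ω`. -/
def StSeq : Prop := ∀ (W : Type 1) [LinearOrder W] [WellFoundedLT W] (B : Type u)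
    [CompleteBooleanAlgebra B] (h : Set W → B) (B0 : Set B) (e : W → ℕ → W), Ctx h B0 e →
    ∀ S : W → Set W, DF h B0 S → ∃ code st x, Sq h B0 e S code st x

/-- Item Dns: the fibres are dense. -/
def StDns : Prop := ∀ (W : Type 1) [LinearOrder W] [WellFoundedLT W] (B : Type u)
    [CompleteBooleanAlgebra B] (h : Set W → B) (B0 : Set B) (e : W → ℕ → W), Ctx h B0 e →
    ∀ S : W → Set W, DF h B0 S → ∀ code st x, Sq h B0 e S code st x →
    ∀ A, h A ∈ B0 → h A ≠ ⊥ → ∃ n a, h {d | st n d = a} ≠ ⊥ ∧ h ({d | st n d = a} \ A) = ⊥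

/-- Item Det: the running maximum is determined by the state. -/
def StDet : Prop := ∀ (W : Type 1) [LinearOrder W] [WellFoundedLT W] (B : Type u)
    [CompleteBooleanAlgebra B] (h : Set W → B) (B0 : Set B) (e : W → ℕ → W), Ctx h B0 e →
    ∀ S : W → Set W, DF h B0 S → ∀ code st x, Sq h B0 e S code st x →
    (∀ n d d', st (n + 1) d = st (n + 1) d' → ymax x n d = ymax x n d') ∧
    (∀ n a, ∃ μ, ∀ d, st n d = a → ymax x n d = max μ (x n d)) ∧
    (∀ n, h {d | ymax x n d < d} = ⊤) ∧ (∀ n d, ymax x n d ≤ ymax x (n + 1) d) ∧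
    ∀ n (E : Set W), h {d | ymax x n d ∈ E} ∈ B0

/-- Item Met: the running maximum meets every club. -/
def StMet : Prop := ∀ (W : Type 1) [LinearOrder W] [WellFoundedLT W] (B : Type u)
    [CompleteBooleanAlgebra B] (h : Set W → B) (B0 : Set B) (e : W → ℕ → W), Ctx h B0 e →
    ∀ S : W → Set W, DF h B0 S → ∀ code st x, Sq h B0 e S code st x →
    ∀ C : Set W, (∀ y, ∃ z ∈ C, y < z) →
      h {d | ∀ g < d, ∃ n, ymax x n d ∈ C ∧ g < ymax x n d} = ⊤

/-- Item Fin: the contradiction. -/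
def StFin : Prop := ∀ (W : Type 1) [LinearOrder W] [WellFoundedLT W] (B : Type u)
    [CompleteBooleanAlgebra B] (h : Set W → B) (B0 : Set B) (e : W → ℕ → W), Ctx h B0 e → ¬ LM W

/-- Item Ctx: from the cardinal form of the hypothesis to the standing assumptions. -/
def StCtx : Prop := ∀ (W : Type 1) [LinearOrder W] [WellFoundedLT W] (B : Type u)
    [CompleteBooleanAlgebra B] (h : Set W → B), (⊤ : B) ≠ ⊥ → Om1 W → NH h → CountGen B →
    ∃ B0 e, Ctx h B0 e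

/-- Item W1: the order `W1`. -/
def StW1 : Prop := Om1 W1

end MP33c03aR
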